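import Pool.Agent.Lib.JS27.Riesz

set_option autoImplicit false

open Filter Topology Pool.Agent.Lib.MP_0447a2_lc

namespace Pool.Agent.Lib.JS27

lemma ee_zero : ee 0 = 1 := by unfold ee; simp

lemma cor_zero (g : ℝ → ℝ) (a b : ℝ) : cor g a b 0 = ((∫ v in a..b, g v : ℝ) : ℂ) := by
  unfold cor
  simp only [zero_mul, ee_zero, mul_one]
  exact intervalIntegral.integral_ofReal

lemma re_cor {g : ℝ → ℝ} (hg : Continuous g) (a b l ψ : ℝ) :
    ∫ v in a..b, g v * (ee (l * v + ψ)).re = (ee ψ * cor g a b l).re := by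
  unfold cor
  rw [← intervalIntegral.integral_const_mul]
  have h := ((cor_int hg a b l).const_mul (ee ψ))
  have := intervalIntegral.intervalIntegral_re h
  simp only [RCLike.re_to_complex] at this
  rw [← this]
  congr 1
  funext v
  rw [ee_add]
  have : ee ψ * (g v * ee (l * v)) = g v * (ee (l * v) * ee ψ) := by ring
  rw [this, Complex.re_ofReal_mul]

lemma abs_re_cor {g : ℝ → ℝ} (hg : Continuous g) (a b l ψ : ℝ) :
    |∫ v in a..b, g v * (ee (l * v + ψ)).re| ≤ ‖cor g a b l‖ := by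
  rw [re_cor hg]
  refine (Complex.abs_re_le_norm _).trans ?_
  rw [norm_mul, norm_ee, one_mul]

lemma norm_cor_le {g : ℝ → ℝ} (hg0 : ∀ v, 0 ≤ g v) {a b : ℝ} (hab : a ≤ b)
    (l : ℝ) : ‖cor g a b l‖ ≤ ∫ v in a..b, g v := by
  unfold cor
  refine (intervalIntegral.norm_integral_le_integral_norm hab).trans_eq ?_
  congr 1
  funext v
  rw [norm_mul, norm_ee, mul_one, Complex.norm_real, Real.norm_eq_abs, abs_of_nonneg (hg0 v)]

/-- weighted second moment through correlations -/
lemma moment_le {g : ℝ → ℝ} (hg : Continuous g) (a b : ℝ) (s : Finset ℕ) (l ψ : ℕ → ℝ) :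
    ∫ v in a..b, g v * ‖∑ n ∈ s, ee (l n * v + ψ n)‖ ^ 2 ≤
      ∑ i ∈ s, ∑ j ∈ s, ‖cor g a b (l i - l j)‖ := by
  have hc := continuous_ee
  have e : ∀ v, g v * ‖∑ n ∈ s, ee (l n * v + ψ n)‖ ^ 2 =
      ∑ i ∈ s, ∑ j ∈ s, g v * (ee ((l i - l j) * v + (ψ i - ψ j))).re := by
    intro v
    rw [norm_sq_sum_ee, Finset.mul_sum]
    refine Finset.sum_congr rfl fun i _ => ?_
    rw [Finset.mul_sum]
    refine Finset.sum_congr rfl fun j _ => ?_
    rw [ee_re]
    congr 2
    ring
  simp only [e]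
  rw [intervalIntegral.integral_finsetSum (fun i _ => by
    apply Continuous.intervalIntegrable
    fun_prop)]
  refine Finset.sum_le_sum fun i _ => ?_
  rw [intervalIntegral.integral_finsetSum (fun j _ => by
    apply Continuous.intervalIntegrable
    fun_prop)]
  exact Finset.sum_le_sum fun j _ => (le_abs_self _).trans (abs_re_cor hg _ _ _ _)

/-- unweighted second moment with phases -/
lemma moment_plain {α b : ℝ} (hα : 1 < |α|) (hb : 1 ≤ |b|) {a c : ℝ} (hc : 0 ≤ c) (M : ℕ)
    (ψ : ℕ → ℝ) :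
    ∫ v in a..(a + c), ‖∑ n ∈ Finset.range M, ee (b * α ^ n * v + ψ n)‖ ^ 2 ≤
      M * (c + (|α| / (|α| - 1)) ^ 2) := by
  have hβ : 0 < |α| := by linarith
  have hβ1 : 0 < |α| - 1 := by linarith
  have h1 := moment_le (continuous_rz (fun _ => 0) (fun _ => 0) ∅) a (a + c) (Finset.range M)
    (fun n => b * α ^ n) ψ
  have e : ∀ v, rz (fun _ => 0) (fun _ => 0) ∅ v = 1 := fun v => by simp [rz]
  simp only [e, one_mul] at h1
  refine h1.trans ?_
  have hb' : ∀ i j : ℕ, ‖cor (rz (fun _ => 0) (fun _ => 0) ∅) a (a + c) (b * α ^ i - b * α ^ j)‖ ≤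
      (if i = j then c else 0) + |α| / (|α| - 1) * (1 / |α| ^ i) := by
    intro i j
    have hp : 0 ≤ |α| / (|α| - 1) * (1 / |α| ^ i) := by positivity
    split_ifs with hij
    · subst hij
      have := norm_cor_le (rz_nonneg (fun _ => 0) (fun _ => 0) ∅) (a := a) (b := a + c)
        (by linarith) (b * α ^ i - b * α ^ i)
      simp only [e, intervalIntegral.integral_const, smul_eq_mul, mul_one, add_sub_cancel_left] at this
      linarith
    · have h1 := pow_sub_pow_ge hα hij
      have h2 : 0 < (|α| - 1) / |α| * |α| ^ i := by positivity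
      have h3 : |α ^ i - α ^ j| ≤ |b * α ^ i - b * α ^ j| := by
        rw [← mul_sub, abs_mul]
        exact le_mul_of_one_le_left (abs_nonneg _) hb
      have h4 : b * α ^ i - b * α ^ j ≠ 0 := abs_pos.1 (by linarith)
      refine (cor_empty _ _ _ _ h4).trans ?_
      have h7 : |α| / (|α| - 1) * (1 / |α| ^ i) = 1 / ((|α| - 1) / |α| * |α| ^ i) := by
        field_simp
      rw [zero_add, h7]
      apply one_div_le_one_div_of_le h2
      nlinarith [Real.pi_gt_three]
  calc _ ≤ ∑ i ∈ Finset.range M, (c + M * (|α| / (|α| - 1) * (1 / |α| ^ i))) := by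
        apply Finset.sum_le_sum
        intro i hi
        refine le_trans (Finset.sum_le_sum fun j _ => hb' i j) ?_
        rw [Finset.sum_add_distrib, Finset.sum_ite_eq]
        simp [hi]
    _ = M * c + M * (|α| / (|α| - 1) * ∑ i ∈ Finset.range M, 1 / |α| ^ i) := by
        rw [Finset.sum_add_distrib, ← Finset.mul_sum, ← Finset.mul_sum]
        simp
    _ ≤ M * c + M * (|α| / (|α| - 1) * (|α| / (|α| - 1))) := by
        gcongr
        exact sum_inv_pow_le hα M
    _ = _ := by ring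

section geo

variable {m ρ : ℝ}

lemma mean_real (hm : m ≠ 0) (hρ : 8 ≤ |ρ|) (φ : ℕ → ℝ) (a c : ℝ) (T : Finset ℕ) :
    |(∫ v in a..(a + c), rz (fun i => m * ρ ^ i) φ T v) - c| ≤ 2 / |m| := by
  have h := cor_mean hm hρ φ a (a + c) T
  rw [cor_zero, add_sub_cancel_left, ← Complex.ofReal_sub, Complex.norm_real,
    Real.norm_eq_abs] at h
  exact h

lemma le_abs_geo (hρ : 8 ≤ |ρ|) {i j : ℕ} (hij : i ≤ j) : |m * ρ ^ i| ≤ |m * ρ ^ j| := by
  rw [abs_mul, abs_mul, abs_pow, abs_pow]
  gcongr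
  linarith

lemma on_prog (hm : m ≠ 0) (hρ : 8 ≤ |ρ|) (φ : ℕ → ℝ) (a c : ℝ) {T : Finset ℕ} {j : ℕ}
    (hj : j ∈ T) :
    c / 2 - 7 / |m| ≤
      ∫ v in a..(a + c), rz (fun i => m * ρ ^ i) φ T v * (ee (m * ρ ^ j * v + φ j)).re := by
  have hm' : 0 < |m| := abs_pos.2 hm
  rw [re_cor (continuous_rz _ _ _)]
  have hT : T = insert j (T.erase j) := (Finset.insert_erase hj).symm
  rw [hT, cor_insert _ _ (Finset.notMem_erase j T)]
  set x := |m * ρ ^ j| with hx
  have hmx : |m| ≤ x := by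
    have := le_abs_geo (m := m) hρ (Nat.zero_le j)
    rwa [pow_zero, mul_one] at this
  have hκ : 1 / (|ρ| - 1) ≤ 1 / 7 := one_div_le_one_div_of_le (by norm_num) (by linarith)
  have hnr : ∀ l : ℝ, x ≤ |l| → |l| ≤ 2 * x →
      ‖cor (rz (fun i => m * ρ ^ i) φ (T.erase j)) a (a + c) l‖ ≤ 4 / |m| := by
    intro l h1 h2
    have := cor_nonres hm hρ φ a (a + c) (D := |m| / 2) (by positivity) (T.erase j) l (by
      intro e he
      rcases spec_dich (m := m) hρ (T.erase j) e he j with h | ⟨i0, h3, h4, h5⟩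
      · have h6 : x / (|ρ| - 1) ≤ x / 7 :=
          div_le_div_of_nonneg_left (by linarith) (by norm_num) (by linarith)
        have h7 := abs_sub (l + ∑ i ∈ T.erase j, e i * (m * ρ ^ i))
          (∑ i ∈ T.erase j, e i * (m * ρ ^ i))
        rw [add_sub_cancel_right] at h7
        linarith
      · have h6 : j + 1 ≤ i0 := by
          have := (Finset.mem_erase.1 h3).1
          omega
        have h7 := le_abs_geo (m := m) hρ h6
        have h8 : 8 * x ≤ |m * ρ ^ (j + 1)| := by
          rw [pow_succ, ← mul_assoc, abs_mul, mul_comm]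
          gcongr
        have h9 := abs_sub (l + ∑ i ∈ T.erase j, e i * (m * ρ ^ i)) l
        rw [add_sub_cancel_left] at h9
        have h10 : 8 * x * (6 / 7) ≤ |m * ρ ^ i0| * (1 - 1 / (|ρ| - 1)) := by
          apply mul_le_mul (by linarith) (by linarith) (by norm_num) (abs_nonneg _)
        linarith)
    refine this.trans_eq ?_
    field_simp
    norm_num
  have n1 := hnr (m * ρ ^ j) le_rfl (by linarith)
  have n2 := hnr (m * ρ ^ j + m * ρ ^ j) (by
    rw [← two_mul, abs_mul, abs_two]; linarith) (by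
    rw [← two_mul, abs_mul, abs_two])
  have n3 := mean_real hm hρ φ a c (T.erase j)
  rw [sub_self, cor_zero]
  set I := ∫ v in a..(a + c), rz (fun i => m * ρ ^ i) φ (T.erase j) v
  set z1 := cor (rz (fun i => m * ρ ^ i) φ (T.erase j)) a (a + c) (m * ρ ^ j)
  set z2 := cor (rz (fun i => m * ρ ^ i) φ (T.erase j)) a (a + c) (m * ρ ^ j + m * ρ ^ j)
  have e1 : ee (φ j) * ee (-φ j) = 1 := by rw [← ee_add, add_neg_cancel, ee_zero]
  have e2 : ee (φ j) * (z1 + ee (φ j) / 2 * z2 + ee (-φ j) / 2 * (I : ℂ)) =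
      ee (φ j) * z1 + ee (φ j) * (ee (φ j) / 2 * z2) + ((I / 2 : ℝ) : ℂ) := by
    push_cast
    linear_combination ((I : ℂ) / 2) * e1
  rw [e2, Complex.add_re, Complex.add_re, Complex.ofReal_re]
  have b1 := (Complex.abs_re_le_norm (ee (φ j) * z1))
  have b2 := (Complex.abs_re_le_norm (ee (φ j) * (ee (φ j) / 2 * z2)))
  rw [norm_mul, norm_ee, one_mul] at b1 b2
  rw [norm_mul, norm_div, norm_ee] at b2
  simp only [Complex.norm_ofNat] at b2
  rw [abs_le] at b1 b2 n3
  have e3 : 7 / |m| = 4 / |m| + 1 / 2 * (4 / |m|) + 1 / 2 * (2 / |m|) := by ring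
  linarith [b1.1, b2.1, n3.1]

lemma off_prog (hm : m ≠ 0) (hρ : 8 ≤ |ρ|) (φ : ℕ → ℝ) (a c : ℝ) (T : Finset ℕ) {A l : ℝ}
    (hA1 : 1 + 2 / (|ρ| - 1) ≤ A) (hA2 : 2 / (|ρ| - 1) + 1 / A ≤ 1) {j : ℕ}
    (h1 : A * |m * ρ ^ j| ≤ |l|) (h2 : A * |l| ≤ |m * ρ ^ (j + 1)|) :
    ‖cor (rz (fun i => m * ρ ^ i) φ T) a (a + c) l‖ ≤ (|ρ| + 1) / |m| := by
  have hm' : 0 < |m| := abs_pos.2 hm
  have hρ1 : 0 < |ρ| - 1 := by linarith
  set κ := 1 / (|ρ| - 1) with hκ
  have hκ0 : 0 < κ := by positivity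
  have hκ2 : 2 / (|ρ| - 1) = 2 * κ := by rw [hκ]; ring
  rw [hκ2] at hA1 hA2
  have hA0 : 0 < A := by linarith
  have hmj : |m| ≤ |m * ρ ^ j| := by
    have := le_abs_geo (m := m) hρ (Nat.zero_le j)
    simpa using this
  have hmj1 : |m| ≤ |m * ρ ^ (j + 1)| := by
    have := le_abs_geo (m := m) hρ (Nat.zero_le (j + 1))
    simpa using this
  have := cor_nonres hm hρ φ a (a + c) (D := κ * |m|) (by positivity) T l (by
    intro e he
    rcases spec_dich (m := m) hρ T e he (j + 1) with h | ⟨i0, _, h4, h5⟩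
    · have h6 : |m * ρ ^ (j + 1)| / (|ρ| - 1) = (1 + κ) * |m * ρ ^ j| := by
        rw [pow_succ, ← mul_assoc, abs_mul, hκ]; field_simp; ring
      have h7 := abs_sub (l + ∑ i ∈ T, e i * (m * ρ ^ i)) (∑ i ∈ T, e i * (m * ρ ^ i))
      rw [add_sub_cancel_right] at h7
      nlinarith
    · have h7 := le_abs_geo (m := m) hρ h4
      have h9 := abs_sub (l + ∑ i ∈ T, e i * (m * ρ ^ i)) l
      rw [add_sub_cancel_left] at h9
      have h10 : |l| ≤ 1 / A * |m * ρ ^ (j + 1)| := by
        rw [one_div_mul_eq_div, le_div_iff₀ hA0]; linarith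
      have h11 : 0 < 1 / A := by positivity
      rw [← hκ] at h5
      have h12 : |m * ρ ^ (j + 1)| * (1 - κ) ≤ |m * ρ ^ i0| * (1 - κ) := by
        apply mul_le_mul_of_nonneg_right h7; linarith
      nlinarith)
  refine this.trans_eq ?_
  rw [hκ]
  field_simp
  ring

end geo

/-- admissible step of the progression -/
def Adm (β : ℝ) (q : ℕ) : Prop :=
  1 ≤ q ∧ 8 ≤ |β ^ q| ∧ 1 + 2 / (|β ^ q| - 1) ≤ |β| ∧ 2 / (|β ^ q| - 1) + 1 / |β| ≤ 1

lemma adm_eventually {β : ℝ} (hβ : 1 < |β|) : ∀ᶠ q in atTop, Adm β q := by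
  have t1 : Tendsto (fun q : ℕ => |β ^ q|) atTop atTop := by
    simp only [abs_pow]
    exact tendsto_pow_atTop_atTop_of_one_lt hβ
  have t2 : Tendsto (fun q : ℕ => 2 / (|β ^ q| - 1)) atTop (nhds 0) :=
    tendsto_const_nhds.div_atTop (tendsto_atTop_add_const_right _ (-1) t1)
  have h1 : 0 < |β| - 1 := by linarith
  have h2 : 0 < 1 - 1 / |β| := by
    rw [sub_pos, div_lt_one (by linarith)]; exact hβ
  filter_upwards [eventually_ge_atTop 1, t1.eventually (eventually_ge_atTop 8),
    t2.eventually (ge_mem_nhds h1), t2.eventually (ge_mem_nhds h2)] with q a b c d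
  exact ⟨a, b, by linarith, by linarith⟩

/-- the Riesz weight attached to the sequence `b β^n v + ψ n` -/
noncomputable def wt (β b : ℝ) (ψ : ℕ → ℝ) (q n0 : ℕ) (T : Finset ℕ) : ℝ → ℝ :=
  rz (fun i => b * β ^ n0 * (β ^ q) ^ i) (fun i => ψ (n0 + q * i)) T

lemma wt_eq (β b : ℝ) (ψ : ℕ → ℝ) (q n0 : ℕ) (T : Finset ℕ) (v : ℝ) :
    wt β b ψ q n0 T v =
      ∏ i ∈ T, (1 + (ee (b * β ^ (n0 + q * i) * v + ψ (n0 + q * i))).re) := by
  unfold wt rz
  refine Finset.prod_congr rfl fun i _ => ?_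
  simp only [pow_add, pow_mul, mul_assoc]

lemma wt_mean {β : ℝ} {q : ℕ} (hq : Adm β q) {c η : ℝ} {n0 : ℕ} (hβ : 1 < |β|)
    (hn0 : 2 / |β| ^ n0 ≤ η) {b : ℝ} (hb : 1 ≤ |b|) (ψ : ℕ → ℝ) (a : ℝ) (T : Finset ℕ) :
    |(∫ v in a..(a + c), wt β b ψ q n0 T v) - c| ≤ η := by
  have h0 : 0 < |β| ^ n0 := by positivity
  have h1 : |β| ^ n0 ≤ |b * β ^ n0| := by
    rw [abs_mul, abs_pow]; exact le_mul_of_one_le_left h0.le hb
  have hm : b * β ^ n0 ≠ 0 := abs_pos.1 (by linarith)
  refine (mean_real hm hq.2.1 _ a c T).trans (le_trans ?_ hn0)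
  exact div_le_div_of_nonneg_left (by norm_num) h0 h1

/-- under the Riesz weight the first Weyl sum has a linear bias -/
lemma wt_bias {β : ℝ} {q : ℕ} (hq : Adm β q) {c : ℝ} (hc : 0 < c) {n0 : ℕ} (hβ : 1 < |β|)
    (hn0 : (|β ^ q| + 7) / |β| ^ n0 ≤ c / (16 * q)) {b : ℝ} (hb : 1 ≤ |b|) (ψ : ℕ → ℝ) (a : ℝ)
    {N J : ℕ} (hN : 32 * q * (n0 + 1) ≤ N) (hJ : N ≤ J) :
    c * N / (4 * q) ≤ ∫ v in a..(a + c), wt β b ψ q n0 (Finset.range J) v *
      (∑ n ∈ Finset.range N, ee (b * β ^ n * v + ψ n)).re := by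
  classical
  obtain ⟨q1, q8, qa, qb⟩ := hq
  have hq0 : (1 : ℝ) ≤ q := by exact_mod_cast q1
  have h0 : 0 < |β| ^ n0 := by positivity
  have h1 : |β| ^ n0 ≤ |b * β ^ n0| := by
    rw [abs_mul, abs_pow]; exact le_mul_of_one_le_left h0.le hb
  have hm : b * β ^ n0 ≠ 0 := abs_pos.1 (by linarith)
  have hE : ∀ x : ℝ, 0 ≤ x → x ≤ |β ^ q| + 7 → x / |b * β ^ n0| ≤ c / (16 * q) := by
    intro x hx0 hx
    refine le_trans ?_ hn0
    gcongr
  have hcq : c / (16 * q) ≤ c := div_le_self hc.le (by linarith)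
  have hcont : Continuous (wt β b ψ q n0 (Finset.range J)) := continuous_rz _ _ _
  have hce := continuous_ee
  simp only [Complex.re_sum, Finset.mul_sum]
  rw [intervalIntegral.integral_finsetSum (fun i _ => by
    apply Continuous.intervalIntegrable
    fun_prop)]
  set r := (N - n0) / q with hr
  let P : Finset ℕ := (Finset.range r).image fun j => n0 + q * j
  have hPc : P.card = r := by
    rw [Finset.card_image_of_injective, Finset.card_range]
    intro i j hij
    simp only at hij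
    exact Nat.eq_of_mul_eq_mul_left (show 0 < q by omega) (by omega)
  have hqr : q * r ≤ N - n0 := Nat.mul_div_le _ _
  have hn0N : n0 ≤ N := by nlinarith
  have hP : P ⊆ Finset.range N := by
    intro n hn
    obtain ⟨j, hj, rfl⟩ := Finset.mem_image.1 hn
    have := Finset.mem_range.1 hj
    have h3 : q * (j + 1) ≤ q * r := Nat.mul_le_mul_left _ this
    rw [Finset.mem_range]
    have : q * (j + 1) = q * j + q := by ring
    omega
  have hterm : ∀ n ∈ Finset.range N,
      (if n ∈ P then c / 2 else 0) - c / (16 * q) - (if n ∈ Finset.range n0 then 2 * c else 0) ≤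
      ∫ v in a..(a + c), wt β b ψ q n0 (Finset.range J) v * (ee (b * β ^ n * v + ψ n)).re := by
    intro n hn
    rw [Finset.mem_range] at hn
    have hcq0 : 0 ≤ c / (16 * q) := by positivity
    by_cases hlt : n < n0
    · have hnP : n ∉ P := by
        intro h
        obtain ⟨j, _, rfl⟩ := Finset.mem_image.1 h
        omega
      rw [if_neg hnP, if_pos (Finset.mem_range.2 hlt)]
      have a1 := abs_re_cor hcont a (a + c) (b * β ^ n) (ψ n)
      have a2 := norm_cor_le (g := wt β b ψ q n0 (Finset.range J)) (rz_nonneg _ _ _)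
        (a := a) (b := a + c) (by linarith) (b * β ^ n)
      have a3 := mean_real hm q8 (fun i => ψ (n0 + q * i)) a c (Finset.range J)
      have a4 := hE 2 (by norm_num) (by linarith)
      rw [abs_le] at a1 a3
      have a5 : ∫ v in a..(a + c), wt β b ψ q n0 (Finset.range J) v ≤ 2 * c := by
        have := a3.2
        unfold wt
        linarith
      linarith [a1.1]
    · rw [if_neg (show n ∉ Finset.range n0 by simpa using hlt), sub_zero]
      obtain ⟨j, i, hi, rfl⟩ : ∃ j i, i < q ∧ n = n0 + q * j + i :=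
        ⟨(n - n0) / q, (n - n0) % q, Nat.mod_lt _ (by omega), by
          have := Nat.div_add_mod (n - n0) q
          omega⟩
      rcases Nat.eq_zero_or_pos i with rfl | hi0
      · have hjJ : j ∈ Finset.range J := by
          rw [Finset.mem_range]
          have : j ≤ q * j := Nat.le_mul_of_pos_left _ (by omega)
          omega
        have a1 := on_prog hm q8 (fun i => ψ (n0 + q * i)) a c hjJ
        have a2 := hE 7 (by norm_num) (by linarith)
        have e : b * β ^ (n0 + q * j + 0) = b * β ^ n0 * (β ^ q) ^ j := by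
          rw [add_zero, pow_add, pow_mul, mul_assoc]
        rw [e, add_zero]
        have a3 : (if n0 + q * j ∈ P then c / 2 else 0) ≤ c / 2 := by
          split_ifs
          · exact le_rfl
          · positivity
        unfold wt
        linarith
      · have hnP : n0 + q * j + i ∉ P := by
          intro h
          obtain ⟨j', _, hj'⟩ := Finset.mem_image.1 h
          have h3 : q * j' = q * j + i := by omega
          have h4 : (q * j') % q = (q * j + i) % q := by rw [h3]
          rw [Nat.mul_mod_right, Nat.mul_add_mod, Nat.mod_eq_of_lt hi] at h4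
          omega
        rw [if_neg hnP]
        have hb0 : 0 < |b| := by linarith
        have a0 : ∀ u v : ℕ, u + 1 ≤ v → |β| * |b * β ^ u| ≤ |b * β ^ v| := by
          intro u v huv
          rw [abs_mul, abs_mul, abs_pow, abs_pow, mul_left_comm, ← pow_succ']
          gcongr
          exact hβ.le
        have a1 := off_prog hm q8 (fun i => ψ (n0 + q * i)) a c (Finset.range J) qa qb
          (l := b * β ^ (n0 + q * j + i)) (j := j) (by
            rw [← pow_mul, mul_assoc b, ← pow_add]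
            exact a0 _ _ (by omega)) (by
            rw [← pow_mul, mul_assoc b, ← pow_add]
            apply a0
            have : q * (j + 1) = q * j + q := by ring
            omega)
        have a2 := hE (|β ^ q| + 1) (by positivity) (by linarith)
        have a3 := abs_re_cor hcont a (a + c) (b * β ^ (n0 + q * j + i)) (ψ (n0 + q * j + i))
        rw [abs_le] at a3
        have a4 := a3.1
        unfold wt at a4 ⊢
        linarith
  refine le_trans ?_ (Finset.sum_le_sum hterm)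
  rw [Finset.sum_sub_distrib, Finset.sum_sub_distrib, Finset.sum_ite_mem, Finset.sum_ite_mem,
    Finset.inter_eq_right.2 hP, Finset.inter_eq_right.2 (Finset.range_subset_range.2 hn0N)]
  simp only [Finset.sum_const, Finset.card_range, hPc, nsmul_eq_mul]
  have r1 : N - n0 < q * (r + 1) := by
    rw [hr]; exact Nat.lt_mul_div_succ _ (by omega)
  have r2 : (N : ℝ) ≤ q * (r + 1) + n0 := by
    have : N ≤ q * (r + 1) + n0 := by omega
    exact_mod_cast this
  have r3 : 32 * (q : ℝ) * (n0 + 1) ≤ N := by exact_mod_cast hN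
  have r4 : (0 : ℝ) ≤ n0 := Nat.cast_nonneg _
  have e : (r : ℝ) * (c / 2) - N * (c / (16 * q)) - n0 * (2 * c) - c * N / (4 * q) =
      c / (16 * q) * (8 * (q * r) - 5 * N - 32 * (q * n0)) := by
    field_simp; ring
  have r5 : 0 ≤ c / (16 * q) * (8 * (q * r) - 5 * N - 32 * (q * n0)) := by
    apply mul_nonneg (by positivity)
    nlinarith
  linarith

end Pool.Agent.Lib.JS27
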