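import Pool.Agent.Lib.JS27.Select

set_option autoImplicit false

open Filter Topology MeasureTheory Pool.Agent.Lib.MP_0447a2_lc

namespace Pool.Agent.Lib.JS27

variable {ι : Type} [Fintype ι] [DecidableEq ι]

/-- the shifted partial sum over the coordinates in `S` -/
def ps (α : ι → ℝ) (y : Finset ι → ℕ → ℝ) (S : Finset ι) (θ : ι → ℝ) (n : ℕ) : ℝ :=
  ∑ i ∈ S, θ i * α i ^ n + y S n

variable (α : ι → ℝ) (y : Finset ι → ℕ → ℝ)

omit [Fintype ι] [DecidableEq ι] in
lemma continuous_ps (S : Finset ι) (n : ℕ) : Continuous fun θ => ps α y S θ n := by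
  unfold ps
  fun_prop

omit [Fintype ι] in
lemma ps_notMem {S : Finset ι} {i : ι} (hi : i ∉ S) (θ : ι → ℝ) (v : ℝ) (n : ℕ) :
    ps α y S (Function.update θ i v) n = ps α y S θ n := by
  unfold ps
  congr 1
  refine Finset.sum_congr rfl fun j hj => ?_
  rw [Function.update_of_ne (ne_of_mem_of_not_mem hj hi)]

omit [Fintype ι] in
lemma ps_mem {S : Finset ι} {i : ι} (hi : i ∈ S) (θ : ι → ℝ) (v : ℝ) (n : ℕ) :
    ps α y S (Function.update θ i v) n =
      1 * α i ^ n * v + (∑ j ∈ S.erase i, θ j * α j ^ n + y S n) := by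
  unfold ps
  rw [← Finset.add_sum_erase _ _ hi, Function.update_self]
  have : ∑ j ∈ S.erase i, Function.update θ i v j * α j ^ n = ∑ j ∈ S.erase i, θ j * α j ^ n := by
    refine Finset.sum_congr rfl fun j hj => ?_
    rw [Function.update_of_ne (Finset.mem_erase.1 hj).1]
  rw [this]
  ring

/-- the Riesz weight on the cube -/
noncomputable def bw (S : Finset ι) (q n0 : ℕ) (T : Finset ℕ) (θ : ι → ℝ) : ℝ :=
  ∏ j ∈ T, (1 + (ee (ps α y S θ (n0 + q * j))).re)

/-- squared Weyl sum -/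
noncomputable def sq2 (S : Finset ι) (h N : ℕ) (θ : ι → ℝ) : ℝ :=
  ‖∑ n ∈ Finset.range N, ee (h * ps α y S θ n)‖ ^ 2

omit [Fintype ι] [DecidableEq ι] in
lemma bw_nonneg (S : Finset ι) (q n0 : ℕ) (T : Finset ℕ) (θ : ι → ℝ) : 0 ≤ bw α y S q n0 T θ :=
  Finset.prod_nonneg fun _ _ => one_add_re_nonneg _

omit [Fintype ι] [DecidableEq ι] in
lemma continuous_bw (S : Finset ι) (q n0 : ℕ) (T : Finset ℕ) : Continuous (bw α y S q n0 T) := by
  unfold bw
  have := continuous_ee
  have := continuous_ps α y S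
  fun_prop

omit [Fintype ι] [DecidableEq ι] in
lemma continuous_sq2 (S : Finset ι) (h N : ℕ) : Continuous (sq2 α y S h N) := by
  unfold sq2
  have := continuous_ee
  have := continuous_ps α y S
  fun_prop

omit [Fintype ι] in
lemma bw_mem {S : Finset ι} {i : ι} (hi : i ∈ S) (q n0 : ℕ) (T : Finset ℕ) (θ : ι → ℝ) (v : ℝ) :
    bw α y S q n0 T (Function.update θ i v) =
      wt (α i) 1 (fun n => ∑ j ∈ S.erase i, θ j * α j ^ n + y S n) q n0 T v := by
  rw [wt_eq]
  unfold bw
  simp only [ps_mem α y hi]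

omit [Fintype ι] in
lemma bw_notMem {S : Finset ι} {i : ι} (hi : i ∉ S) (q n0 : ℕ) (T : Finset ℕ) (θ : ι → ℝ) (v : ℝ) :
    bw α y S q n0 T (Function.update θ i v) = bw α y S q n0 T θ := by
  unfold bw
  simp only [ps_notMem α y hi]

omit [Fintype ι] in
lemma sq2_line {K : ℝ} (hα : ∀ i, 1 < |α i|) (hK : ∀ i, (|α i| / (|α i| - 1)) ^ 2 ≤ K)
    {S : Finset ι} {i : ι} (hi : i ∈ S) {h : ℕ} (hh : 1 ≤ h) (N : ℕ) (θ : ι → ℝ) (a : ℝ) :
    ∫ v in a..(a + 1), sq2 α y S h N (Function.update θ i v) ≤ N * (1 + K) := by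
  have h1 := moment_plain (b := h) (hα i) (by rw [Nat.abs_cast]; exact_mod_cast hh) (a := a)
    zero_le_one N (fun n => h * (∑ j ∈ S.erase i, θ j * α j ^ n + y S n))
  have e : ∀ v, sq2 α y S h N (Function.update θ i v) = ‖∑ n ∈ Finset.range N,
      ee (h * α i ^ n * v + h * (∑ j ∈ S.erase i, θ j * α j ^ n + y S n))‖ ^ 2 := by
    intro v
    unfold sq2
    simp only [ps_mem α y hi]
    congr 2
    refine Finset.sum_congr rfl fun n _ => ?_
    congr 1
    ring
  simp only [e]
  refine h1.trans ?_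
  gcongr
  exact hK i

variable {α}

lemma bw_mean (hα : ∀ i, 1 < |α i|) {q n0 : ℕ} (hq : ∀ i, Adm (α i) q)
    (hn : ∀ i, 2 / |α i| ^ n0 ≤ 1) {S : Finset ι} (hS : S.Nonempty) (T : Finset ℕ) (a : ι → ℝ) :
    ∫ θ, bw α y S q n0 T θ ∂cube a ≤ 2 := by
  obtain ⟨i, hi⟩ := hS
  refine (cube_le a (continuous_bw α y S q n0 T) (continuous_const (y := 2))
    (bw_nonneg α y S q n0 T) (fun _ => by norm_num) i fun θ => ?_).trans_eq (cube_const a 2)
  simp only [bw_mem α y hi]
  have := wt_mean (hq i) (c := 1) (hα i) (hn i) (b := 1) (by simp)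
    (fun n => ∑ j ∈ S.erase i, θ j * α j ^ n + y S n) (a i) T
  rw [abs_le] at this
  simp only [intervalIntegral.integral_const, add_sub_cancel_left, smul_eq_mul, one_mul]
  linarith [this.2]

lemma bw_moment {K : ℝ} (hα : ∀ i, 1 < |α i|) (hK : ∀ i, (|α i| / (|α i| - 1)) ^ 2 ≤ K)
    (hK0 : 0 ≤ K) {q n0 : ℕ} (hq : ∀ i, Adm (α i) q)
    (hn : ∀ i, 2 / |α i| ^ n0 ≤ 1) {S0 S : Finset ι} (hS : S.Nonempty) (hne : S ≠ S0)
    (T : Finset ℕ) (a : ι → ℝ) (hw : ∫ θ, bw α y S0 q n0 T θ ∂cube a ≤ 2)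
    {h : ℕ} (hh : 1 ≤ h) (N : ℕ) :
    ∫ θ, bw α y S0 q n0 T θ * sq2 α y S h N θ ∂cube a ≤ 2 * (N * (1 + K)) := by
  have c1 := continuous_bw α y S0 q n0 T
  have c2 := continuous_sq2 α y S h N
  have n1 := bw_nonneg α y S0 q n0 T
  have n2 : ∀ θ, 0 ≤ sq2 α y S h N θ := fun θ => sq_nonneg _
  have n3 : (0 : ℝ) ≤ N * (1 + K) := by positivity
  by_cases hsub : S ⊆ S0
  · obtain ⟨i, hi0, hi⟩ := Finset.exists_of_ssubset (Finset.ssubset_iff_subset_ne.2 ⟨hsub, hne⟩)
    obtain ⟨i', hi'⟩ := hS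
    have h1 : ∫ θ, bw α y S0 q n0 T θ * sq2 α y S h N θ ∂cube a ≤
        ∫ θ, 2 * sq2 α y S h N θ ∂cube a := by
      refine cube_le a (c1.mul c2) (continuous_const.mul c2) (fun θ => mul_nonneg (n1 θ) (n2 θ))
        (fun θ => mul_nonneg (by norm_num) (n2 θ)) i fun θ => ?_
      have e : ∀ v, sq2 α y S h N (Function.update θ i v) = sq2 α y S h N θ := by
        intro v; unfold sq2; simp only [ps_notMem α y hi]
      simp only [e, bw_mem α y hi0]
      rw [intervalIntegral.integral_mul_const]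
      have := wt_mean (hq i) (c := 1) (hα i) (hn i) (b := 1) (by simp)
        (fun n => ∑ j ∈ S0.erase i, θ j * α j ^ n + y S0 n) (a i) T
      rw [abs_le] at this
      simp only [intervalIntegral.integral_const, add_sub_cancel_left, smul_eq_mul, one_mul]
      exact mul_le_mul_of_nonneg_right (by linarith [this.2]) (n2 θ)
    have h2 : ∫ θ, sq2 α y S h N θ ∂cube a ≤ N * (1 + K) := by
      refine (cube_le a c2 (continuous_const (y := (N : ℝ) * (1 + K))) n2 (fun _ => n3) i'
        fun θ => ?_).trans_eq (cube_const a _)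
      simp only [intervalIntegral.integral_const, add_sub_cancel_left, smul_eq_mul, one_mul]
      exact sq2_line α y hα hK hi' hh N θ _
    rw [integral_const_mul] at h1
    linarith
  · obtain ⟨i, hi, hi0⟩ := Finset.not_subset.1 hsub
    have h1 : ∫ θ, bw α y S0 q n0 T θ * sq2 α y S h N θ ∂cube a ≤
        ∫ θ, N * (1 + K) * bw α y S0 q n0 T θ ∂cube a := by
      refine cube_le a (c1.mul c2) (continuous_const.mul c1) (fun θ => mul_nonneg (n1 θ) (n2 θ))
        (fun θ => mul_nonneg n3 (n1 θ)) i fun θ => ?_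
      simp only [bw_notMem α y hi0]
      rw [intervalIntegral.integral_const_mul]
      simp only [intervalIntegral.integral_const, add_sub_cancel_left, smul_eq_mul, one_mul]
      rw [mul_comm (N * (1 + K))]
      exact mul_le_mul_of_nonneg_left (sq2_line α y hα hK hi hh N θ _) (n1 θ)
    rw [integral_const_mul] at h1
    nlinarith

lemma bw_bias (hα : ∀ i, 1 < |α i|) {q n0 : ℕ} (hq : ∀ i, Adm (α i) q)
    (hn : ∀ i, (|α i ^ q| + 7) / |α i| ^ n0 ≤ 1 / (16 * q)) {S : Finset ι} (hS : S.Nonempty)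
    (a : ι → ℝ) {N : ℕ} (hN : 32 * q * (n0 + 1) ≤ N) :
    N / (4 * q) ≤ ∫ θ, bw α y S q n0 (Finset.range N) θ *
      (∑ n ∈ Finset.range N, ee (ps α y S θ n)).re ∂cube a := by
  obtain ⟨i, hi⟩ := hS
  have c1 := continuous_bw α y S q n0 (Finset.range N)
  have n1 := bw_nonneg α y S q n0 (Finset.range N)
  have c2 : Continuous fun θ => (∑ n ∈ Finset.range N, ee (ps α y S θ n)).re := by
    have := continuous_ee
    have := continuous_ps α y S
    fun_prop
  have n2 : ∀ θ, 0 ≤ (∑ n ∈ Finset.range N, ee (ps α y S θ n)).re + N := by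
    intro θ
    have h1 := (Complex.abs_re_le_norm _).trans (norm_sum_ee_le N (ps α y S θ))
    linarith [(abs_le.1 h1).1]
  have h1 : ∫ θ, (N / (4 * q) + N * bw α y S q n0 (Finset.range N) θ) ∂cube a ≤
      ∫ θ, (bw α y S q n0 (Finset.range N) θ * (∑ n ∈ Finset.range N, ee (ps α y S θ n)).re +
        N * bw α y S q n0 (Finset.range N) θ) ∂cube a := by
    refine cube_le a (by fun_prop) (by fun_prop) (fun θ => by have := n1 θ; positivity)
      (fun θ => by nlinarith [mul_nonneg (n1 θ) (n2 θ)]) i fun θ => ?_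
    have cu : Continuous fun v : ℝ => Function.update θ i v :=
      continuous_const.update i continuous_id
    have j1 : IntervalIntegrable
        (fun v => N * bw α y S q n0 (Finset.range N) (Function.update θ i v)) volume
        (a i) (a i + 1) := (continuous_const.mul (c1.comp cu)).intervalIntegrable _ _
    have j2 : IntervalIntegrable
        (fun v => bw α y S q n0 (Finset.range N) (Function.update θ i v) *
          (∑ n ∈ Finset.range N, ee (ps α y S (Function.update θ i v) n)).re) volume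
        (a i) (a i + 1) := ((c1.mul c2).comp cu).intervalIntegrable _ _
    rw [intervalIntegral.integral_add (continuous_const.intervalIntegrable _ _) j1,
      intervalIntegral.integral_add j2 j1]
    have := wt_bias (hq i) one_pos (hα i) (hn i) (b := 1) (by simp)
      (fun n => ∑ j ∈ S.erase i, θ j * α j ^ n + y S n) (a i) hN le_rfl
    simp only [intervalIntegral.integral_const, add_sub_cancel_left, smul_eq_mul, one_mul]
    simp only [bw_mem α y hi, ps_mem α y hi]
    rw [one_mul] at this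
    linarith
  have i1 : Integrable (fun θ => N * bw α y S q n0 (Finset.range N) θ) (cube a) :=
    cube_int a (continuous_const.mul c1)
  have i2 : Integrable (fun θ => bw α y S q n0 (Finset.range N) θ *
      (∑ n ∈ Finset.range N, ee (ps α y S θ n)).re) (cube a) := cube_int a (c1.mul c2)
  rw [integral_add (cube_int a continuous_const) i1, integral_add i2 i1, cube_const] at h1
  linarith

/-- the block step on the unit cube -/
lemma cube_step (hα : ∀ i, 1 < |α i|) {q : ℕ} (hq : ∀ i, Adm (α i) q) (q1 : 1 ≤ q) (k : ℕ) :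
    ∀ᶠ N : ℕ in atTop, ∀ (y : Finset ι → ℕ → ℝ) (S0 : Finset ι) (a : ι → ℝ),
      ∃ θ : ι → ℝ, (∀ i, a i ≤ θ i ∧ θ i ≤ a i + 1) ∧
        (∀ S : Finset ι, S.Nonempty → S ≠ S0 → ∀ h : ℕ, 1 ≤ h → h ≤ k →
          ‖∑ n ∈ Finset.range N, ee (h * ps α y S θ n)‖ ≤ N / (2 * (k + 1))) ∧
        (S0.Nonempty → 1 / (16 * q) * N ≤ (∑ n ∈ Finset.range N, ee (ps α y S0 θ n)).re) := by
  have hq0 : (1 : ℝ) ≤ q := by exact_mod_cast q1
  obtain ⟨n0, hn1, hn2⟩ : ∃ n0 : ℕ, (∀ i, 2 / |α i| ^ n0 ≤ 1) ∧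
      ∀ i, (|α i ^ q| + 7) / |α i| ^ n0 ≤ 1 / (16 * q) := by
    have t : ∀ i (c : ℝ), Tendsto (fun n : ℕ => c / |α i| ^ n) atTop (nhds 0) := fun i c =>
      tendsto_const_nhds.div_atTop (tendsto_pow_atTop_atTop_of_one_lt (hα i))
    exact ((eventually_all.2 fun i => (t i 2).eventually (ge_mem_nhds one_pos)).and
      (eventually_all.2 fun i => (t i _).eventually
        (ge_mem_nhds (show (0 : ℝ) < 1 / (16 * q) by positivity)))).exists
  set K := ∑ i, (|α i| / (|α i| - 1)) ^ 2 with hKdef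
  have hK : ∀ i, (|α i| / (|α i| - 1)) ^ 2 ≤ K := fun i =>
    Finset.single_le_sum (f := fun i => (|α i| / (|α i| - 1)) ^ 2) (fun _ _ => sq_nonneg _)
      (Finset.mem_univ i)
  have hK0 : 0 ≤ K := Finset.sum_nonneg fun _ _ => sq_nonneg _
  set Λ : ℝ := (2 * (k + 1)) ^ 2 with hΛ
  set C0 : ℝ := ((((Finset.univ : Finset (Finset ι)) ×ˢ Finset.Icc 1 k).card : ℕ) : ℝ) with hC0
  filter_upwards [eventually_ge_atTop (32 * q * (n0 + 1)), eventually_ge_atTop 1,
    (tendsto_natCast_atTop_atTop (R := ℝ)).eventually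
      (eventually_ge_atTop (16 * q * (Λ * (C0 * (2 * (1 + K))))))] with N hN1 hN2 hN3
  intro y S0 a
  have hN0 : (0 : ℝ) < N := by exact_mod_cast hN2
  let T : Finset ℕ := if S0.Nonempty then Finset.range N else ∅
  let G : (ι → ℝ) → ℝ := fun θ =>
    if S0.Nonempty then (∑ n ∈ Finset.range N, ee (ps α y S0 θ n)).re else N
  let s : Finset (Finset ι × ℕ) :=
    ((Finset.univ : Finset (Finset ι)) ×ˢ Finset.Icc 1 k).filter fun r => r.1.Nonempty ∧ r.1 ≠ S0
  have cG : Continuous G := by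
    by_cases h : S0.Nonempty
    · simp only [G, if_pos h]
      have := continuous_ee
      have := continuous_ps α y S0
      fun_prop
    · simp only [G, if_neg h]
      exact continuous_const
  have c1 := continuous_bw α y S0 q n0 T
  have hw : ∫ θ, bw α y S0 q n0 T θ ∂cube a ≤ 2 := by
    by_cases h : S0.Nonempty
    · exact bw_mean y hα hq hn1 h T a
    · simp only [T, if_neg h, bw, Finset.prod_empty]
      rw [cube_const]; norm_num
  obtain ⟨θ, h1, h2, h3⟩ := select (cube_ae a) (w := bw α y S0 q n0 T) (G := G)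
    (Q := fun r : Finset ι × ℕ => sq2 α y r.1 r.2 N) s (γ := 1 / (16 * q)) (N := N) (Λ := Λ)
    (C := 2 * (N * (1 + K))) (by positivity) hN0 (by positivity) (bw_nonneg α y S0 q n0 T)
    (fun _ _ => sq_nonneg _) (by
      intro θ
      by_cases h : S0.Nonempty
      · simp only [G, if_pos h]
        exact (Complex.re_le_norm _).trans (norm_sum_ee_le N _)
      · simp only [G, if_neg h]
        exact le_rfl)
    (cube_int a c1) (cube_int a (c1.mul cG))
    (fun r => cube_int a (c1.mul (continuous_sq2 α y _ _ _))) hw (by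
      by_cases h : S0.Nonempty
      · simp only [G, T, if_pos h]
        refine le_trans (le_of_eq ?_) (bw_bias y hα hq hn2 h a hN1)
        field_simp
        norm_num
      · simp only [G, T, if_neg h, bw, Finset.prod_empty, one_mul]
        rw [cube_const]
        have : 4 * (1 / (16 * (q : ℝ))) ≤ 1 := by
          rw [mul_one_div, div_le_one (by positivity)]; linarith
        nlinarith) (by
      intro r hr
      obtain ⟨r1, r2, r3⟩ := Finset.mem_filter.1 hr
      exact bw_moment y hα hK hK0 hq hn1 r2 r3 T a hw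
        (Finset.mem_Icc.1 (Finset.mem_product.1 r1).2).1 N) (by
      have a1 : (s.card : ℝ) ≤ C0 := by
        rw [hC0]
        exact_mod_cast Finset.card_filter_le _ _
      calc Λ * (s.card * (2 * (N * (1 + K)))) ≤ Λ * (C0 * (2 * (N * (1 + K)))) := by gcongr
        _ = 1 / (16 * q) * ((16 * q * (Λ * (C0 * (2 * (1 + K))))) * N) := by field_simp
        _ ≤ 1 / (16 * q) * (N * N) := by gcongr
        _ = _ := by ring)
  refine ⟨θ, h1, ?_, ?_⟩
  · intro S hS hne h hh1 hh2
    have a1 := h3 (S, h) (Finset.mem_filter.2 ⟨Finset.mem_product.2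
      ⟨Finset.mem_univ _, Finset.mem_Icc.2 ⟨hh1, hh2⟩⟩, hS, hne⟩)
    simp only [sq2] at a1
    rw [le_div_iff₀ (by positivity)]
    apply le_of_sq_le_sq _ hN0.le |>.trans_eq rfl
    rw [mul_pow, mul_comm]
    exact a1
  · intro h
    simpa only [G, if_pos h] using h2

end Pool.Agent.Lib.JS27
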