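import Pool.Agent.Lib.MP_0447a2_lc.Steps

set_option autoImplicit false

open Filter Topology Pool.Agent.Lib.MP_0447a2_lc

namespace Pool.Agent.Lib.JS27

lemma ee_int (n : ℤ) : ee n = 1 := by
  unfold ee
  rw [← Complex.exp_int_mul_two_pi_mul_I n]
  congr 1
  push_cast
  ring

lemma ee_fract (t : ℝ) : ee (Int.fract t) = ee t := by
  conv_rhs => rw [← Int.fract_add_floor t, ee_add, ee_int, mul_one]

lemma ee_half : ee (1 / 2) = -1 := by
  unfold ee
  rw [← Complex.exp_pi_mul_I]
  congr 1
  push_cast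
  ring

lemma sum_ee_grid {P : ℕ} (hP : 1 ≤ P) :
    ∑ j ∈ Finset.range (P + P), ee (j / ((P + P : ℕ) : ℝ)) = 0 := by
  rw [Finset.sum_range_add, ← Finset.sum_add_distrib]
  apply Finset.sum_eq_zero
  intro j _
  have hP0 : (0 : ℝ) < P := by exact_mod_cast hP
  have : (((P + j : ℕ) : ℝ)) / ((P + P : ℕ) : ℝ) = j / ((P + P : ℕ) : ℝ) + 1 / 2 := by
    push_cast; field_simp; ring
  rw [this, ee_add, ee_half]
  ring

/-- the easy half of the Weyl criterion -/
theorem weyl_of_UD (x : ℕ → ℝ) (hx : UD x) :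
    Tendsto (fun N : ℕ => wsum x 1 N / N) atTop (nhds 0) := by
  rw [Metric.tendsto_nhds]
  intro ε hε
  obtain ⟨P, hP1, hP2⟩ : ∃ P : ℕ, 1 ≤ P ∧ 2 * Real.pi / ε ≤ P := by
    obtain ⟨P, hP⟩ := exists_nat_ge (2 * Real.pi / ε)
    exact ⟨P + 1, by omega, by push_cast; linarith⟩
  set Q := P + P with hQ
  have hP0 : (0 : ℝ) < P := by exact_mod_cast hP1
  have hQ0 : (0 : ℝ) < Q := by rw [hQ]; push_cast; linarith
  have hlim : Tendsto (fun N : ℕ => ∑ j ∈ Finset.range Q,
      (((cnt x (j / Q) ((j + 1) / Q) N : ℝ) / N : ℝ) : ℂ) * ee (j / Q)) atTop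
      (nhds (∑ j ∈ Finset.range Q, ((1 / Q : ℝ) : ℂ) * ee (j / Q))) := by
    apply tendsto_finsetSum
    intro j hj
    apply Tendsto.mul_const
    apply Tendsto.ofReal
    have hj' : (j : ℝ) + 1 ≤ Q := by exact_mod_cast Finset.mem_range.1 hj
    have := hx (j / Q) ((j + 1) / Q) (by positivity) (by gcongr; linarith)
      (by rw [div_le_one hQ0]; exact hj')
    have e : ((j : ℝ) + 1) / Q - j / Q = 1 / Q := by ring
    rwa [e] at this
  rw [← Finset.mul_sum, sum_ee_grid hP1, mul_zero] at hlim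
  filter_upwards [(Metric.tendsto_nhds.1 hlim) (ε / 2) (half_pos hε), eventually_gt_atTop 0]
    with N hN hN0
  have hN' : (0 : ℝ) < N := by exact_mod_cast hN0
  let J : ℕ → ℕ := fun n => ⌊Q * Int.fract (x n)⌋₊
  have hJ : ∀ n j : ℕ, J n = j ↔ (j : ℝ) / Q ≤ Int.fract (x n) ∧ Int.fract (x n) < (j + 1) / Q := by
    intro n j
    simp only [J]
    rw [Nat.floor_eq_iff (mul_nonneg hQ0.le (Int.fract_nonneg _)), div_le_iff₀ hQ0,
      lt_div_iff₀ hQ0, mul_comm (Int.fract (x n))]
  have hJQ : ∀ n ∈ Finset.range N, J n ∈ Finset.range Q := by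
    intro n _
    rw [Finset.mem_range]
    simp only [J]
    rw [Nat.floor_lt (mul_nonneg hQ0.le (Int.fract_nonneg _))]
    exact mul_lt_of_lt_one_right hQ0 (Int.fract_lt_one _)
  have e1 : ∑ j ∈ Finset.range Q, (((cnt x (j / Q) ((j + 1) / Q) N : ℝ) / N : ℝ) : ℂ) * ee (j / Q) =
      (∑ n ∈ Finset.range N, ee (J n / Q)) / N := by
    rw [← Finset.sum_fiberwise_of_maps_to hJQ, Finset.sum_div]
    refine Finset.sum_congr rfl fun j _ => ?_
    rw [Finset.sum_congr rfl (g := fun _ => ee (j / Q)) (by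
      intro n hn
      rw [(Finset.mem_filter.1 hn).2])]
    rw [Finset.sum_const, nsmul_eq_mul]
    have : (Finset.range N).filter (fun n => J n = j) = (Finset.range N).filter
        (fun n => (j : ℝ) / Q ≤ Int.fract (x n) ∧ Int.fract (x n) < (j + 1) / Q) :=
      Finset.filter_congr fun n _ => hJ n j
    rw [this]
    unfold cnt
    push_cast
    ring
  rw [e1, dist_zero_right, norm_div, Complex.norm_natCast, div_lt_iff₀ hN'] at hN
  rw [dist_zero_right, norm_div, Complex.norm_natCast, div_lt_iff₀ hN']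
  have e2 : ‖wsum x 1 N - ∑ n ∈ Finset.range N, ee (J n / Q)‖ ≤ ε / 2 * N := by
    unfold wsum
    rw [← Finset.sum_sub_distrib]
    calc _ ≤ ∑ n ∈ Finset.range N, ε / 2 := by
          apply norm_sum_le_of_le
          intro n _
          rw [Nat.cast_one, one_mul, ← ee_fract (x n)]
          refine (norm_ee_sub _ _).trans ?_
          obtain ⟨a1, a2⟩ := (hJ n _).1 rfl
          have a3 : |Int.fract (x n) - J n / Q| ≤ 1 / Q := by
            rw [add_div] at a2
            rw [abs_le]
            constructor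
            · have : (0 : ℝ) ≤ 1 / Q := by positivity
              linarith
            · linarith
          have hpi := Real.pi_pos
          rw [div_le_iff₀ hε] at hP2
          calc _ ≤ 2 * Real.pi * (1 / Q) := by gcongr
            _ ≤ ε / 2 := by
              rw [mul_one_div, div_le_iff₀ hQ0, hQ]
              push_cast
              linarith
      _ = _ := by simp [mul_comm]
  have := norm_sub_norm_le (wsum x 1 N) (∑ n ∈ Finset.range N, ee (J n / Q))
  linarith

/-- a schedule running through a countable index set -/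
lemma schedule (ι : Type*) [Countable ι] [Nonempty ι] :
    ∃ (σ : ℕ → ι) (d : ℕ → ℕ), Function.Surjective σ ∧ ∀ (s : ι) (u : ℕ → ℕ),
      (∀ b, ∀ᶠ k in atTop, σ k = s → b ≤ u (d k)) ↔ Tendsto u atTop atTop := by
  obtain ⟨e, he⟩ := exists_surjective_nat ι
  refine ⟨fun k => e (Nat.unpair k).1, fun k => (Nat.unpair k).1 + (Nat.unpair k).2, ?_,
    fun s u => ?_⟩
  · intro s
    obtain ⟨i, hi⟩ := he s
    exact ⟨Nat.pair i 0, by simpa using hi⟩
  constructor
  · intro h
    obtain ⟨i, hi⟩ := he s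
    rw [tendsto_atTop]
    intro b
    obtain ⟨k0, hk0⟩ := eventually_atTop.1 (h b)
    filter_upwards [eventually_ge_atTop (k0 + i)] with n hn
    have h1 := hk0 (Nat.pair i (n - i)) (le_trans (by omega) (Nat.right_le_pair _ _))
      (by simpa using hi)
    have h2 : i + (n - i) = n := by omega
    simpa only [Nat.unpair_pair, h2] using h1
  · intro h b
    have h1 : Tendsto (fun k => (Nat.unpair k).1 + (Nat.unpair k).2) atTop atTop := by
      rw [tendsto_atTop]
      intro c
      filter_upwards [eventually_ge_atTop ((c + 1) ^ 2)] with k hk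
      by_contra hc
      have h2 := Nat.pair_lt_max_add_one_sq (Nat.unpair k).1 (Nat.unpair k).2
      rw [Nat.pair_unpair] at h2
      have h3 : max (Nat.unpair k).1 (Nat.unpair k).2 + 1 ≤ c + 1 := by omega
      have h4 := Nat.pow_le_pow_left h3 2
      omega
    filter_upwards [(h.comp h1).eventually (eventually_ge_atTop b)] with k hk _
    exact hk

end Pool.Agent.Lib.JS27
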