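import Pool.Agent.Lib.JS27.Nest
import Pool.Agent.Lib.JS27.Conv
import Pool.Agent.Lib.JS27.Box
import Pool.Agent.Lib.MP_0447a2_lc.Construct
import Pool.Agent.Lib.MP_0447a2_lc.ReduceGen

set_option autoImplicit false

open Filter Topology Pool.Agent.Lib.MP_0447a2_lc

namespace Pool.Agent.Lib.JS27

/-- simultaneous reduction from a nested construction -/
theorem joint_abs {X ι : Type*} [Countable ι] [MetricSpace X] [CompleteSpace X]
    {K : X → ℕ → Set X} {ρ : ℕ → ℝ}
    (hKc : ∀ u t, IsClosed (K u t)) (hKu : ∀ u t, u ∈ K u t)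
    (hKρ : ∀ u t, ∀ ξ ∈ K u t, dist ξ u ≤ ρ t) (hρa : Antitone ρ)
    (hρ : Tendsto ρ atTop (nhds 0))
    {W : ι → X → ℕ → ℕ → ℂ} {C δ : ι → ℝ} (hC : ∀ s, 0 ≤ C s) (hδ : ∀ s, 0 < δ s)
    (hW0 : ∀ s ξ h, W s ξ h 0 = 0)
    (hW : ∀ s ξ h (t L : ℕ), ‖W s ξ h (t + L) - W s ξ h t‖ ≤ C s * L)
    (hstep : ∀ k (F : Finset ι), ∃ M, 1 ≤ M ∧ ∀ o, (∀ s, o = some s → s ∈ F) → ∀ u t,
      ∃ u', K u' (t + M) ⊆ K u t ∧ ∀ ξ ∈ K u' (t + M), Good W δ F k M o ξ t)
    {U : ι → X → Prop}
    (hU1 : ∀ s ξ, (∀ h : ℕ, 1 ≤ h → Tendsto (fun t : ℕ => W s ξ h t / t) atTop (nhds 0)) → U s ξ)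
    (hU2 : ∀ s ξ, U s ξ → Tendsto (fun t : ℕ => W s ξ 1 t / t) atTop (nhds 0))
    {O : Set X} (hO : IsOpen O) (hOne : O.Nonempty)
    {Y : Type*} [TopologicalSpace Y] [SecondCountableTopology Y]
    (hY : TopologicalSpace.IsTopologicalBasis {s : Set Y | IsClopen s})
    (G : ι → ℕ → ℕ → Set Y) (hG : ∀ s i j, IsClosed (G s i j)) :
    ∃ f : Y → X, Continuous f ∧ ∀ x, f x ∈ O ∧ ∀ s, (U s (f x) ↔ x ∈ ⋂ i, ⋃ j, G s i j) := by
  obtain ⟨u0, hu0⟩ := hOne
  rcases isEmpty_or_nonempty ι with hι | hι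
  · exact ⟨fun _ => u0, continuous_const, fun x => ⟨hu0, fun s => isEmptyElim s⟩⟩
  obtain ⟨ε, hε, hball⟩ := Metric.isOpen_iff.1 hO u0 hu0
  obtain ⟨t0, ht0⟩ := (hρ.eventually (gt_mem_nhds hε)).exists
  obtain ⟨σ, d, hσs, hσ⟩ := schedule ι
  obtain ⟨g, hg, hgK⟩ := nest hKc hKu hKρ hρa hρ hC hδ hW0 hW hstep σ u0 t0
  choose Z hZ hZB using fun s => reduce_to_C3_gen hY (G s) (hG s)
  refine ⟨fun x => g fun k => Z (σ k) x (d k),
    hg.comp (continuous_pi fun k => (continuous_apply _).comp (hZ _)), fun x => ⟨?_, fun s => ?_⟩⟩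
  · exact hball (lt_of_le_of_lt (hKρ _ _ _ (hgK _).1) ht0)
  · obtain ⟨h1, h2⟩ := (hgK fun k => Z (σ k) x (d k)).2 s (hσs s)
    rw [hZB, ← hσ s]
    constructor
    · intro h b
      filter_upwards [h2 (hU2 _ _ h) b] with k hk hs
      rw [← hs]
      exact hk hs
    · intro h
      apply hU1
      apply h1
      intro b
      filter_upwards [h b] with k hk hs
      rw [hs]
      exact hk hs

lemma wsum_sub (x : ℕ → ℝ) (h t L : ℕ) :
    wsum x h (t + L) - wsum x h t = ∑ j ∈ Finset.range L, ee (h * x (t + j)) := by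
  rw [wsum_add, add_sub_cancel_left]

section sums

variable {ι : Type} [Fintype ι] [DecidableEq ι]

/-- the box of level `t` -/
def bx (α : ι → ℝ) (u : ι → ℝ) (t : ℕ) : Set (ι → ℝ) := {ξ | ∀ i, |ξ i - u i| ≤ 1 / |α i| ^ t}

lemma box_step {α : ι → ℝ} (hα : ∀ i, 1 < |α i|) (y : Finset ι → ℕ → ℝ) {q : ℕ}
    (hq : ∀ i, Adm (α i) q) (q1 : 1 ≤ q) (k : ℕ) (F : Finset {S : Finset ι // S.Nonempty}) :
    ∃ M, 1 ≤ M ∧ ∀ (o : Option {S : Finset ι // S.Nonempty}), (∀ s, o = some s → s ∈ F) → ∀ u t,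
      ∃ u', bx α u' (t + M) ⊆ bx α u t ∧ ∀ ξ ∈ bx α u' (t + M),
        Good (fun (S : {S : Finset ι // S.Nonempty}) ξ h t => wsum (ps α y S.1 ξ) h t)
          (fun _ => 1 / (32 * q)) F k M o ξ t := by
  have hq0 : (1 : ℝ) ≤ q := by exact_mod_cast q1
  have hpi := Real.pi_pos
  set V := ∑ i, 1 / (|α i| - 1) with hV
  have hV0 : 0 ≤ V := Finset.sum_nonneg fun i _ => by
    have := hα i
    apply div_nonneg zero_le_one; linarith
  obtain ⟨M, h1, h2, h3, h4, h5⟩ := ((cube_step hα hq q1 k).and ((eventually_ge_atTop 1).and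
    ((eventually_all.2 fun i => (tendsto_pow_atTop_atTop_of_one_lt (hα i)).eventually
      (eventually_ge_atTop 2)).and
    (((tendsto_natCast_atTop_atTop (R := ℝ)).eventually
      (eventually_ge_atTop (2 * Real.pi * k * V * (2 * (k + 1))))).and
    ((tendsto_natCast_atTop_atTop (R := ℝ)).eventually
      (eventually_ge_atTop (2 * Real.pi * V * (32 * q)))))))).exists
  refine ⟨M, h2, fun o _ u t => ?_⟩
  have hA : ∀ i, 0 < |α i| := fun i => by linarith [hα i]
  have hne : ∀ i, α i ^ t ≠ 0 := fun i => pow_ne_zero _ (abs_pos.1 (hA i))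
  obtain ⟨θ, a1, a2, a3⟩ := h1 (fun S n => y S (t + n)) (o.elim ∅ Subtype.val)
    (fun i => u i * α i ^ t - 1 / 2)
  refine ⟨fun i => θ i / α i ^ t, ?_, ?_⟩
  · intro ξ hξ i
    have b1 := hξ i
    have b2 : |θ i / α i ^ t - u i| ≤ 1 / 2 / |α i| ^ t := by
      have e : θ i / α i ^ t - u i = (θ i - u i * α i ^ t) / α i ^ t := by
        have := hne i
        field_simp
      rw [e, abs_div, abs_pow]
      have := hA i
      gcongr
      rw [abs_le]
      constructor <;> linarith [(a1 i).1, (a1 i).2]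
    have b3 : 1 / |α i| ^ (t + M) ≤ 1 / 2 / |α i| ^ t := by
      have := hA i
      rw [pow_add, div_div, mul_comm]
      gcongr
      exact h3 i
    have b4 := abs_sub_le (ξ i) (θ i / α i ^ t) (u i)
    have e : 1 / |α i| ^ t = 1 / 2 / |α i| ^ t + 1 / 2 / |α i| ^ t := by ring
    simp only at b1
    linarith
  · intro ξ hξ
    have hd : ∀ S : Finset ι, ∑ n ∈ Finset.range M,
        |ps α y S ξ (t + n) - ps α (fun S n => y S (t + n)) S θ n| ≤ V := by
      intro S
      have c1 : ∀ n, |ps α y S ξ (t + n) - ps α (fun S n => y S (t + n)) S θ n| ≤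
          ∑ i, |α i| ^ n / |α i| ^ M := by
        intro n
        unfold ps
        rw [add_sub_add_right_eq_sub, ← Finset.sum_sub_distrib]
        refine (Finset.abs_sum_le_sum_abs _ _).trans (le_trans (Finset.sum_le_sum fun i _ => ?_)
          (Finset.sum_le_sum_of_subset_of_nonneg (Finset.subset_univ S)
            fun i _ _ => by positivity))
        have e : ξ i * α i ^ (t + n) - θ i * α i ^ n = (ξ i - θ i / α i ^ t) * α i ^ (t + n) := by
          have := hne i
          rw [pow_add]; field_simp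
        have := hA i
        rw [e, abs_mul, abs_pow]
        calc _ ≤ 1 / |α i| ^ (t + M) * |α i| ^ (t + n) := by
              gcongr
              exact hξ i
          _ = _ := by rw [pow_add, pow_add]; field_simp
      refine (Finset.sum_le_sum fun n _ => c1 n).trans ?_
      rw [Finset.sum_comm]
      refine Finset.sum_le_sum fun i _ => ?_
      rw [← Finset.sum_div, div_le_iff₀ (by have := hA i; positivity), one_div_mul_eq_div]
      exact sum_pow_le (hα i) M
    constructor
    · intro s _ hs h hh1 hh2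
      simp only [wsum_sub]
      have c1 := a2 s.1 s.2 (by
        intro hc
        cases o with
        | none => exact s.2.ne_empty hc
        | some s' => exact hs (congrArg some (Subtype.ext hc))) h hh1 hh2
      have c2 := norm_sum_ee_sub M (fun n => ps α y s.1 ξ (t + n))
        (ps α (fun S n => y S (t + n)) s.1 θ) h
      have c3 : (h : ℝ) ≤ k := by exact_mod_cast hh2
      have c4 : 2 * Real.pi * h * ∑ n ∈ Finset.range M,
          |ps α y s.1 ξ (t + n) - ps α (fun S n => y S (t + n)) s.1 θ n| ≤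
          2 * Real.pi * k * V := by
        gcongr
        exact hd _
      have c5 : 2 * Real.pi * k * V ≤ M / (2 * (k + 1)) := by
        rw [le_div_iff₀ (by positivity)]; exact h4
      have c6 := norm_sub_norm_le (∑ n ∈ Finset.range M, ee (h * ps α y s.1 ξ (t + n)))
        (∑ n ∈ Finset.range M, ee (h * ps α (fun S n => y S (t + n)) s.1 θ n))
      have e : (M : ℝ) / (k + 1) = M / (2 * (k + 1)) + M / (2 * (k + 1)) := by
        field_simp; ring
      linarith
    · rintro s rfl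
      simp only [wsum_sub]
      have c1 := a3 s.2
      simp only [Option.elim] at c1
      have c2 := norm_sum_ee_sub M (fun n => ps α y s.1 ξ (t + n))
        (ps α (fun S n => y S (t + n)) s.1 θ) 1
      simp only [Nat.cast_one, one_mul, mul_one] at c2 ⊢
      have c4 : 2 * Real.pi * ∑ n ∈ Finset.range M,
          |ps α y s.1 ξ (t + n) - ps α (fun S n => y S (t + n)) s.1 θ n| ≤
          2 * Real.pi * V := by
        gcongr
        exact hd _
      have c5 : 2 * Real.pi * V ≤ 1 / (32 * q) * M := by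
        rw [one_div_mul_eq_div, le_div_iff₀ (by positivity)]; exact h5
      have c6 := (Complex.abs_re_le_norm _).trans c2
      rw [Complex.sub_re, abs_le] at c6
      have e : 1 / (16 * (q : ℝ)) * M = 1 / (32 * q) * M + 1 / (32 * q) * M := by
        field_simp; ring
      linarith [c6.1]

/-- all shifted partial sums are jointly universal -/
theorem joint_sums {α : ι → ℝ} (hα : ∀ i, 1 < |α i|) (y : Finset ι → ℕ → ℝ)
    {O : Set (ι → ℝ)} (hO : IsOpen O) (hOne : O.Nonempty)
    {Y : Type*} [TopologicalSpace Y] [SecondCountableTopology Y]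
    (hY : TopologicalSpace.IsTopologicalBasis {s : Set Y | IsClopen s})
    (G : {S : Finset ι // S.Nonempty} → ℕ → ℕ → Set Y) (hG : ∀ s i j, IsClosed (G s i j)) :
    ∃ f : Y → (ι → ℝ), Continuous f ∧ ∀ x, f x ∈ O ∧
      ∀ s, (UD (ps α y s.1 (f x)) ↔ x ∈ ⋂ i, ⋃ j, G s i j) := by
  obtain ⟨q, hq, q1⟩ := ((eventually_all.2 fun i => adm_eventually (hα i)).and
    (eventually_ge_atTop 1)).exists
  have hq0 : (1 : ℝ) ≤ q := by exact_mod_cast q1
  have hA : ∀ i, 0 < |α i| := fun i => by linarith [hα i]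
  refine joint_abs (K := bx α) (ρ := fun t => ∑ i, 1 / |α i| ^ t)
    (W := fun (S : {S : Finset ι // S.Nonempty}) ξ h t => wsum (ps α y S.1 ξ) h t)
    (C := fun _ => 1) (δ := fun _ => 1 / (32 * q)) (U := fun s ξ => UD (ps α y s.1 ξ))
    ?_ ?_ ?_ ?_ ?_ (fun _ => zero_le_one) (fun _ => by positivity) ?_ ?_
    (box_step hα y hq q1) (fun s ξ h => UD_of_weyl _ h) (fun s ξ h => weyl_of_UD _ h)
    hO hOne hY G hG
  · intro u t
    simp only [bx, Set.ofPred_forall]
    exact isClosed_iInter fun i => isClosed_le (by fun_prop) continuous_const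
  · intro u t i
    have := hA i
    simp only [sub_self, abs_zero]
    positivity
  · intro u t ξ hξ
    rw [dist_pi_le_iff (Finset.sum_nonneg fun i _ => by positivity)]
    intro i
    rw [Real.dist_eq]
    exact (hξ i).trans (Finset.single_le_sum (f := fun i => 1 / |α i| ^ t)
      (fun i _ => by positivity) (Finset.mem_univ i))
  · intro s t hst
    refine Finset.sum_le_sum fun i _ => ?_
    have := hA i
    gcongr
    exact (hα i).le
  · have := tendsto_finsetSum (Finset.univ : Finset ι) fun i _ =>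
      (tendsto_const_nhds (x := (1 : ℝ))).div_atTop (tendsto_pow_atTop_atTop_of_one_lt (hα i))
    simpa using this
  · intro s ξ h
    simp [wsum]
  · intro s ξ h t L
    rw [wsum_sub, one_mul]
    exact norm_sum_ee_le L _

end sums

end Pool.Agent.Lib.JS27
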