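import Mathlib

set_option autoImplicit false

open Filter Topology

namespace Pool.Agent.Lib.JS27

variable {X : Type*} {ι : Type*}

/-- what one block of type `o` and length `M` starting at level `t` achieves at the point `ξ` -/
def Good (W : ι → X → ℕ → ℕ → ℂ) (δ : ι → ℝ) (F : Finset ι) (k M : ℕ) (o : Option ι) (ξ : X)
    (t : ℕ) : Prop :=
  (∀ s ∈ F, some s ≠ o → ∀ h : ℕ, 1 ≤ h → h ≤ k →
      ‖W s ξ h (t + M) - W s ξ h t‖ ≤ M / (k + 1)) ∧
    (∀ s, o = some s → δ s * M ≤ (W s ξ 1 (t + M) - W s ξ 1 t).re)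

lemma iter {K : X → ℕ → Set X} {M : ℕ} {Q : X → ℕ → Prop}
    (h : ∀ u t, ∃ u', K u' (t + M) ⊆ K u t ∧ ∀ ξ ∈ K u' (t + M), Q ξ t) (u : X) (t R : ℕ) :
    ∃ u', K u' (t + R * M) ⊆ K u t ∧ ∀ ξ ∈ K u' (t + R * M), ∀ r < R, Q ξ (t + r * M) := by
  induction R with
  | zero => exact ⟨u, by simp, fun ξ _ r hr => absurd hr (Nat.not_lt_zero r)⟩
  | succ R ih =>
    obtain ⟨u1, h1, h2⟩ := ih
    obtain ⟨u2, h3, h4⟩ := h u1 (t + R * M)
    have e : t + (R + 1) * M = t + R * M + M := by ring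
    rw [e]
    refine ⟨u2, h3.trans h1, ?_⟩
    intro ξ hξ r hr
    rcases Nat.lt_succ_iff_lt_or_eq.1 hr with hr | rfl
    · exact h2 ξ (h3 hξ) r hr
    · exact h4 ξ hξ

lemma blocks_norm {f : ℕ → ℂ} {C ε : ℝ} (hC : 0 ≤ C) (hε : 0 ≤ ε)
    (hf : ∀ t L : ℕ, ‖f (t + L) - f t‖ ≤ C * L) {t M R : ℕ} (hM : 1 ≤ M)
    (hb : ∀ r < R, ‖f (t + r * M + M) - f (t + r * M)‖ ≤ ε * M) :
    ∀ L ≤ R * M, ‖f (t + L) - f t‖ ≤ ε * L + C * M := by
  have h1 : ∀ r ≤ R, ‖f (t + r * M) - f t‖ ≤ ε * (r * M) := by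
    intro r
    induction r with
    | zero => intro _; simp
    | succ r ih =>
      intro hr
      have e : t + (r + 1) * M = t + r * M + M := by ring
      rw [e]
      have a1 := ih (by omega)
      have a2 := hb r (by omega)
      have a3 := norm_sub_le_norm_sub_add_norm_sub (f (t + r * M + M)) (f (t + r * M)) (f t)
      push_cast
      linarith
  intro L hL
  have e : t + L = t + (L / M) * M + L % M := by
    have := Nat.div_add_mod L M
    rw [mul_comm] at this
    omega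
  have a1 : L / M ≤ R := by
    apply Nat.div_le_of_le_mul; rw [mul_comm]; exact hL
  have a2 := h1 _ a1
  have a3 := hf (t + (L / M) * M) (L % M)
  have a4 : ((L % M : ℕ) : ℝ) ≤ M := by exact_mod_cast (Nat.mod_lt L hM).le
  have a5 : ((L / M : ℕ) : ℝ) * M ≤ L := by exact_mod_cast Nat.div_mul_le_self L M
  have a6 := norm_sub_le_norm_sub_add_norm_sub (f (t + (L / M) * M + L % M))
    (f (t + (L / M) * M)) (f t)
  rw [e]
  have a7 : ε * (((L / M : ℕ) : ℝ) * M) ≤ ε * L := by gcongr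
  have a8 : C * ((L % M : ℕ) : ℝ) ≤ C * M := by gcongr
  linarith

lemma blocks_re {f : ℕ → ℂ} {δ : ℝ} {t M R : ℕ}
    (hb : ∀ r < R, δ * M ≤ (f (t + r * M + M) - f (t + r * M)).re) :
    δ * (R * M) ≤ (f (t + R * M) - f t).re := by
  induction R with
  | zero => simp
  | succ R ih =>
    have e : t + (R + 1) * M = t + R * M + M := by ring
    rw [e]
    have a1 := ih fun r hr => hb r (by omega)
    have a2 := hb R (by omega)
    rw [Complex.sub_re] at a1 a2 ⊢
    push_cast
    linarith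

open Classical in
/-- one stage -/
lemma stage {K : X → ℕ → Set X} {W : ι → X → ℕ → ℕ → ℂ} {C δ : ι → ℝ} (hC : ∀ s, 0 ≤ C s)
    (hδ : ∀ s, 0 ≤ δ s) (hW0 : ∀ s ξ h, W s ξ h 0 = 0)
    (hW : ∀ s ξ h (t L : ℕ), ‖W s ξ h (t + L) - W s ξ h t‖ ≤ C s * L)
    {M : ℕ → ℕ} (hM : ∀ k, 1 ≤ M k) {F : ℕ → Finset ι}
    (hstep : ∀ k o, (∀ s, o = some s → s ∈ F k) → ∀ u t, ∃ u', K u' (t + M k) ⊆ K u t ∧
      ∀ ξ ∈ K u' (t + M k), Good W δ (F k) k (M k) o ξ t)
    {σ : ℕ → ι} (hσ : ∀ k, σ k ∈ F k) (k : ℕ) (m : ℕ) (p : X × ℕ) :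
    ∃ q : X × ℕ, p.2 < q.2 ∧ K q.1 q.2 ⊆ K p.1 p.2 ∧ (k + 2) * M (k + 1) ≤ q.2 ∧
      ∀ ξ ∈ K q.1 q.2,
        (∃ t' : ℕ, p.2 ≤ t' ∧ t' ≤ 2 * p.2 + M k ∧
          δ (σ k) * (p.2 / (m + 1)) ≤ (W (σ k) ξ 1 t' - W (σ k) ξ 1 p.2).re) ∧
        (∀ s ∈ F k, ∀ h : ℕ, 1 ≤ h → h ≤ k → ∀ L : ℕ, p.2 ≤ L → L ≤ q.2 →
          ‖W s ξ h L‖ ≤ ‖W s ξ h p.2‖ + (if s = σ k then C s * (p.2 / (m + 1)) else 0) +
            L / (k + 1) + 2 * C s * M k) ∧
        (∀ s ∈ F k, ∀ h : ℕ, 1 ≤ h → h ≤ k →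
          ‖W s ξ h q.2‖ ≤ (C s + 1) * (q.2 / (k + 1))) := by
  obtain ⟨u, N⟩ := p
  set s0 := σ k with hs0
  set R1 := N / ((m + 1) * M k) + 1 with hR1
  obtain ⟨u1, a1, a2⟩ := iter (hstep k (some s0) (by
    intro s hs
    rw [← Option.some.inj hs]
    exact hσ k)) u N R1
  set N' := N + R1 * M k with hN'
  set R2 := (k + 2) * (N' + M k + M (k + 1) + 1) with hR2
  obtain ⟨u2, b1, b2⟩ := iter (hstep k none (by simp)) u1 N' R2
  set N'' := N' + R2 * M k with hN''
  have hR2M : R2 ≤ R2 * M k := Nat.le_mul_of_pos_right _ (hM k)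
  have hpos : 0 < (m + 1) * M k := Nat.mul_pos (by omega) (hM k)
  have c1 : N < R1 * ((m + 1) * M k) := by
    rw [hR1, mul_comm]
    exact Nat.lt_mul_div_succ N hpos
  have c1' : (N : ℝ) / (m + 1) ≤ R1 * M k := by
    rw [div_le_iff₀ (by positivity)]
    have : (N : ℝ) ≤ R1 * ((m + 1) * M k) := by exact_mod_cast c1.le
    linarith
  have c2 : (R1 * M k : ℝ) ≤ N / (m + 1) + M k := by
    have : (N / ((m + 1) * M k)) * ((m + 1) * M k) ≤ N := Nat.div_mul_le_self _ _
    have h2 : ((N / ((m + 1) * M k) : ℕ) : ℝ) * ((m + 1) * M k) ≤ N := by exact_mod_cast this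
    have h3 : ((N / ((m + 1) * M k) : ℕ) : ℝ) * M k ≤ N / (m + 1) := by
      rw [le_div_iff₀ (by positivity)]; linarith
    rw [hR1]; push_cast; linarith
  have c2' : R1 * M k ≤ N + M k := by
    have h1 : (N : ℝ) / (m + 1) ≤ N := div_le_self (by positivity) (by
      have : (0 : ℝ) ≤ m := Nat.cast_nonneg m
      linarith)
    have : (R1 * M k : ℝ) ≤ N + M k := by linarith
    exact_mod_cast this
  have c3 : (k + 2) * (N' + M k + M (k + 1) + 1) ≤ N'' := by omega
  have hk : (0 : ℝ) ≤ 1 / ((k : ℝ) + 1) := by positivity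
  refine ⟨(u2, N''), ?_, b1.trans a1, ?_, ?_⟩
  · show N < N''
    nlinarith
  · show (k + 2) * M (k + 1) ≤ N''
    refine le_trans ?_ c3
    apply Nat.mul_le_mul_left; omega
  · intro ξ hξ
    simp only at hξ ⊢
    have hξ1 := b1 hξ
    have hM0 : ∀ s, (0 : ℝ) ≤ C s * M k := fun s => mul_nonneg (hC s) (by positivity)
    have hB : ∀ s ∈ F k, ∀ h : ℕ, 1 ≤ h → h ≤ k → ∀ L ≤ R2 * M k,
        ‖W s ξ h (N' + L) - W s ξ h N'‖ ≤ 1 / (k + 1) * L + C s * M k := by
      intro s hsF h h1 h2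
      apply blocks_norm (hC s) hk (hW s ξ h) (hM k)
      intro r hr
      have := (b2 ξ hξ r hr).1 s hsF (by simp) h h1 h2
      rwa [one_div_mul_eq_div]
    have hA : ∀ s ∈ F k, ∀ h : ℕ, 1 ≤ h → h ≤ k → ∀ L ≤ R1 * M k,
        ‖W s ξ h (N + L) - W s ξ h N‖ ≤ (if s = s0 then C s * (N / (m + 1)) else 0) +
          1 / (k + 1) * L + C s * M k := by
      intro s hsF h h1 h2 L hL
      split_ifs with hs
      · have d1 := hW s ξ h N L
        have d2 : (L : ℝ) ≤ R1 * M k := by exact_mod_cast hL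
        have d3 : C s * (L : ℝ) ≤ C s * (N / (m + 1) + M k) := by
          apply mul_le_mul_of_nonneg_left _ (hC s); linarith
        have d4 : 0 ≤ 1 / ((k : ℝ) + 1) * L := by positivity
        linarith
      · rw [zero_add]
        refine blocks_norm (hC s) hk (hW s ξ h) (hM k) ?_ L hL
        intro r hr
        have := (a2 ξ hξ1 r hr).1 s hsF (by simpa using hs) h h1 h2
        rwa [one_div_mul_eq_div]
    refine ⟨⟨N', by omega, by omega, ?_⟩, ?_, ?_⟩
    · have d1 := blocks_re (f := W s0 ξ 1) (δ := δ s0) (t := N) (M := M k) (R := R1)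
        fun r hr => (a2 ξ hξ1 r hr).2 s0 rfl
      have d2 : δ s0 * ((N : ℝ) / (m + 1)) ≤ δ s0 * (R1 * M k) :=
        mul_le_mul_of_nonneg_left c1' (hδ s0)
      exact d2.trans d1
    · intro s hsF h h1 h2 L hL1 hL2
      have := hM0 s
      rcases le_total L N' with hL | hL
      · have d1 := hA s hsF h h1 h2 (L - N) (by omega)
        rw [Nat.add_sub_cancel' hL1] at d1
        have d3 : 1 / ((k : ℝ) + 1) * ((L - N : ℕ) : ℝ) ≤ L / (k + 1) := by
          have : ((L - N : ℕ) : ℝ) ≤ L := by exact_mod_cast Nat.sub_le L N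
          rw [one_div_mul_eq_div]; gcongr
        have d4 := norm_sub_norm_le (W s ξ h L) (W s ξ h N)
        linarith
      · have d1 := hB s hsF h h1 h2 (L - N') (by omega)
        rw [Nat.add_sub_cancel' hL] at d1
        have d2 := hA s hsF h h1 h2 (R1 * M k) le_rfl
        rw [← hN'] at d2
        have d3 : 1 / ((k : ℝ) + 1) * ((L - N' : ℕ) : ℝ) + 1 / ((k : ℝ) + 1) * ((R1 * M k : ℕ) : ℝ)
            ≤ L / (k + 1) := by
          have : ((L - N' : ℕ) : ℝ) + ((R1 * M k : ℕ) : ℝ) ≤ L := by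
            have : (L - N') + R1 * M k ≤ L := by omega
            exact_mod_cast this
          rw [← mul_add, one_div_mul_eq_div]; gcongr
        have d4 := norm_sub_norm_le (W s ξ h L) (W s ξ h N')
        have d5 := norm_sub_norm_le (W s ξ h N') (W s ξ h N)
        linarith
    · intro s hsF h h1 h2
      have d1 := hB s hsF h h1 h2 (R2 * M k) le_rfl
      rw [← hN''] at d1
      have d2 := hW s ξ h 0 N'
      rw [zero_add, hW0, sub_zero] at d2
      have d3 : 1 / ((k : ℝ) + 1) * ((R2 * M k : ℕ) : ℝ) ≤ N'' / (k + 1) := by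
        have : ((R2 * M k : ℕ) : ℝ) ≤ N'' := by
          have : R2 * M k ≤ N'' := by omega
          exact_mod_cast this
        rw [one_div_mul_eq_div]; gcongr
      have d4 : (N' : ℝ) + M k ≤ N'' / (k + 1) := by
        rw [le_div_iff₀ (by positivity)]
        have : (N' + M k) * (k + 1) ≤ N'' := by nlinarith
        exact_mod_cast this
      have d5 := norm_sub_norm_le (W s ξ h N'') (W s ξ h N')
      have d6 : C s * ((N' : ℝ) + M k) ≤ C s * (N'' / (k + 1)) :=
        mul_le_mul_of_nonneg_left d4 (hC s)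
      linarith

/-- The nested construction. -/
theorem nest [MetricSpace X] [CompleteSpace X] {K : X → ℕ → Set X} {ρ : ℕ → ℝ}
    (hKc : ∀ u t, IsClosed (K u t)) (hKu : ∀ u t, u ∈ K u t)
    (hKρ : ∀ u t, ∀ ξ ∈ K u t, dist ξ u ≤ ρ t) (hρa : Antitone ρ)
    (hρ : Tendsto ρ atTop (nhds 0))
    {W : ι → X → ℕ → ℕ → ℂ} {C δ : ι → ℝ} (hC : ∀ s, 0 ≤ C s) (hδ : ∀ s, 0 < δ s)
    (hW0 : ∀ s ξ h, W s ξ h 0 = 0)
    (hW : ∀ s ξ h (t L : ℕ), ‖W s ξ h (t + L) - W s ξ h t‖ ≤ C s * L)
    (hstep : ∀ k (F : Finset ι), ∃ M, 1 ≤ M ∧ ∀ o, (∀ s, o = some s → s ∈ F) → ∀ u t,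
      ∃ u', K u' (t + M) ⊆ K u t ∧ ∀ ξ ∈ K u' (t + M), Good W δ F k M o ξ t)
    (σ : ℕ → ι) (u0 : X) (t0 : ℕ) :
    ∃ g : (ℕ → ℕ) → X, Continuous g ∧ ∀ z, g z ∈ K u0 t0 ∧ ∀ s ∈ Set.range σ,
      ((∀ b, ∀ᶠ k in atTop, σ k = s → b ≤ z k) →
        ∀ h : ℕ, 1 ≤ h → Tendsto (fun t : ℕ => W s (g z) h t / t) atTop (nhds 0)) ∧
      (Tendsto (fun t : ℕ => W s (g z) 1 t / t) atTop (nhds 0) →
        ∀ b, ∀ᶠ k in atTop, σ k = s → b ≤ z k) := by
  classical
  let F : ℕ → Finset ι := fun k => (Finset.range (k + 1)).image σ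
  have hF : ∀ j k, j ≤ k → σ j ∈ F k := fun j k h =>
    Finset.mem_image_of_mem _ (Finset.mem_range.2 (by omega))
  choose M hM hstep using fun k => hstep k (F k)
  choose next hn1 hn2 hn3 hn4 using
    stage hC (fun s => (hδ s).le) hW0 hW hM hstep (fun k => hF k k le_rfl)
  let st : (ℕ → ℕ) → ℕ → X × ℕ :=
    fun y k => Nat.rec (u0, t0) (fun k p => next k (y k) p) k
  have hst : ∀ y k, st y (k + 1) = next k (y k) (st y k) := fun y k => rfl
  have hlc : ∀ k, IsLocallyConstant (fun y => st y k) := by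
    intro k
    induction k with
    | zero => exact IsLocallyConstant.const _
    | succ k ih =>
      have h1 : IsLocallyConstant (fun y : ℕ → ℕ => y k) :=
        (IsLocallyConstant.iff_continuous _).2 (continuous_apply k)
      exact h1.comp₂ ih (next k)
  have hmono : ∀ y, StrictMono (fun k => (st y k).2) := fun y =>
    strictMono_nat_of_lt_succ fun k => hn1 k (y k) (st y k)
  have hnest : ∀ y k l, k ≤ l → K (st y l).1 (st y l).2 ⊆ K (st y k).1 (st y k).2 := by
    intro y k l hkl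
    induction l, hkl using Nat.le_induction with
    | base => exact subset_rfl
    | succ l _ ih => exact (hn2 l (y l) (st y l)).trans ih
  have hrad : ∀ y k, ρ (st y k).2 ≤ ρ k := fun y k => hρa (hmono y).le_apply
  have hcauchy : ∀ y, CauchySeq (fun k => (st y k).1) := by
    intro y
    apply cauchySeq_of_le_tendsto_0' ρ _ hρ
    intro k l hkl
    rw [dist_comm]
    exact (hKρ _ _ _ (hnest y k l hkl (hKu _ _))).trans (hrad y k)
  choose g hg using fun y => cauchySeq_tendsto_of_complete (hcauchy y)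
  have hball : ∀ y k, g y ∈ K (st y k).1 (st y k).2 := by
    intro y k
    apply (hKc _ _).mem_of_tendsto (hg y)
    filter_upwards [eventually_ge_atTop k] with l hl
    exact hnest y k l hl (hKu _ _)
  refine ⟨g, ?_, ?_⟩
  · have hunif : TendstoUniformly (fun k y => (st y k).1) g atTop := by
      rw [Metric.tendstoUniformly_iff]
      intro ε hε
      filter_upwards [hρ.eventually (gt_mem_nhds hε)] with k hk y
      exact lt_of_le_of_lt ((hKρ _ _ _ (hball y k)).trans (hrad y k)) hk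
    apply hunif.continuous
    exact Frequently.of_forall fun k => ((hlc k).comp Prod.fst).continuous
  · intro y
    refine ⟨hball y 0, fun s ⟨j0, hj0⟩ => ?_⟩
    have hCs := hC s
    have hδs := hδ s
    have hprop := fun k => hn4 k (y k) (st y k) (g y) (hball y (k + 1))
    simp only [← hst] at hprop
    have hNtop : Tendsto (fun k => (st y k).2) atTop atTop := (hmono y).tendsto_atTop
    have hMk : ∀ k, (k + 2) * M (k + 1) ≤ (st y (k + 1)).2 := fun k => hn3 k (y k) (st y k)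
    constructor
    · intro hy h hh
      rw [Metric.tendsto_nhds]
      intro ε hε
      obtain ⟨b, hb⟩ : ∃ b : ℕ, C s / ((b : ℝ) + 1) < ε / 2 := by
        have t1 : Tendsto (fun k : ℕ => C s / ((k : ℝ) + 1)) atTop (nhds 0) :=
          tendsto_const_nhds.div_atTop (tendsto_atTop_add_const_right _ _ tendsto_natCast_atTop_atTop)
        exact (t1.eventually (gt_mem_nhds (half_pos hε))).exists
      obtain ⟨K0, hK⟩ : ∃ K0 : ℕ, ∀ k ≥ K0, (h ≤ k ∧ j0 ≤ k) ∧ (3 * C s + 2) / ((k : ℝ) + 1) < ε / 2 ∧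
          (σ (k + 1) = s → b ≤ y (k + 1)) := by
        have t1 : Tendsto (fun k : ℕ => (3 * C s + 2) / ((k : ℝ) + 1)) atTop (nhds 0) :=
          tendsto_const_nhds.div_atTop (tendsto_atTop_add_const_right _ _ tendsto_natCast_atTop_atTop)
        exact eventually_atTop.1 (((eventually_ge_atTop h).and (eventually_ge_atTop j0)).and
          ((t1.eventually (gt_mem_nhds (half_pos hε))).and
            ((tendsto_add_atTop_nat 1).eventually (hy b))))
      filter_upwards [eventually_ge_atTop (st y (K0 + 1)).2, eventually_gt_atTop 0] with L hL hL0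
      have hex : ∃ l, L < (st y (l + 1)).2 :=
        ⟨L, lt_of_lt_of_le (Nat.lt_succ_self L) (hmono y).le_apply⟩
      have hl1 := Nat.find_spec hex
      have hl2 : K0 + 1 ≤ Nat.find hex := by
        by_contra hcon
        push Not at hcon
        have : (st y (Nat.find hex + 1)).2 ≤ (st y (K0 + 1)).2 :=
          (hmono y).monotone (show Nat.find hex + 1 ≤ K0 + 1 by omega)
        omega
      obtain ⟨k, hk⟩ : ∃ k, Nat.find hex = k + 1 := ⟨Nat.find hex - 1, by omega⟩
      have hl3 : (st y (k + 1)).2 ≤ L := by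
        have := Nat.find_min hex (show k < Nat.find hex by omega)
        omega
      rw [hk] at hl1
      obtain ⟨⟨k1, k0⟩, k2, k3⟩ := hK k (by omega)
      have p1 := (hprop (k + 1)).2.1 s (hj0 ▸ hF j0 _ (by omega)) h hh (by omega) L hl3 hl1.le
      have p2 := (hprop k).2.2 s (hj0 ▸ hF j0 _ k0) h hh k1
      have p3 := hMk k
      set N := (st y (k + 1)).2 with hN
      have hL' : (0 : ℝ) < L := by exact_mod_cast hL0
      have hNL : (N : ℝ) ≤ L := by exact_mod_cast hl3
      have p4 : (M (k + 1) : ℝ) ≤ L / (k + 1) := by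
        rw [le_div_iff₀ (by positivity)]
        have : M (k + 1) * (k + 1) ≤ L := by nlinarith
        exact_mod_cast this
      have p5 : (C s + 1) * ((N : ℝ) / (k + 1)) ≤ (C s + 1) * (L / (k + 1)) := by gcongr
      have p6 : (if s = σ (k + 1) then C s * ((N : ℝ) / (y (k + 1) + 1)) else 0) ≤
          C s / (b + 1) * L := by
        split_ifs with hs
        · have : (b : ℝ) ≤ y (k + 1) := by exact_mod_cast k3 hs.symm
          have : (N : ℝ) / (y (k + 1) + 1) ≤ L / (b + 1) := by gcongr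
          calc _ ≤ C s * (L / (b + 1)) := by gcongr
            _ = _ := by ring
        · positivity
      have p7 : (L : ℝ) / ((k + 1 : ℕ) + 1) ≤ L / (k + 1) := by
        push_cast
        apply div_le_div_of_nonneg_left hL'.le (by positivity) (by linarith)
      have p4' : 2 * C s * (M (k + 1) : ℝ) ≤ 2 * C s * (L / (k + 1)) := by gcongr
      rw [dist_zero_right, norm_div, Complex.norm_natCast, div_lt_iff₀ hL']
      have p8 : (3 * C s + 2) / ((k : ℝ) + 1) * L < ε / 2 * L := by gcongr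
      have p9 : C s / ((b : ℝ) + 1) * L < ε / 2 * L := by gcongr
      have q1 : (3 * C s + 2) / ((k : ℝ) + 1) * L =
          (C s + 1) * (L / (k + 1)) + L / (k + 1) + 2 * C s * (L / (k + 1)) := by ring
      linarith
    · intro hlim b
      by_contra hy
      rw [not_eventually] at hy
      set ε : ℝ := δ s / (5 * (b + 1)) with hε
      have hεpos : 0 < ε := by positivity
      obtain ⟨N0, hN0⟩ := eventually_atTop.1 ((Metric.tendsto_nhds.1 hlim) ε hεpos)
      have hev := hNtop.eventually (eventually_ge_atTop (N0 + 1))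
      obtain ⟨k', ⟨hk1, hk2⟩, hk3⟩ :=
        ((hy.and_eventually hev).and_eventually (eventually_ge_atTop 1)).exists
      obtain ⟨k, rfl⟩ : ∃ k, k' = k + 1 := ⟨k' - 1, by omega⟩
      push Not at hk1
      obtain ⟨t', e1, e2, e3⟩ := (hprop (k + 1)).1
      rw [hk1.1] at e3
      have p3 := hMk k
      set N := (st y (k + 1)).2 with hN
      have e4 : t' ≤ 3 * N := by nlinarith
      have f1 := hN0 N (by omega)
      have f2 := hN0 t' (by omega)
      have hNpos : (0 : ℝ) < N := by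
        have : 0 < N := by omega
        exact_mod_cast this
      have hN'pos : (0 : ℝ) < t' := by
        have : 0 < t' := by omega
        exact_mod_cast this
      rw [dist_zero_right, norm_div, Complex.norm_natCast, div_lt_iff₀ (by assumption)] at f1 f2
      have f3 := Complex.re_le_norm (W s (g y) 1 t' - W s (g y) 1 N)
      have f4 := norm_sub_le (W s (g y) 1 t') (W s (g y) 1 N)
      have f5 : (t' : ℝ) ≤ 3 * N := by exact_mod_cast e4
      have f6 : (y (k + 1) : ℝ) ≤ b := by exact_mod_cast hk1.2.le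
      have f7 : δ s * ((N : ℝ) / (b + 1)) ≤ δ s * (N / (y (k + 1) + 1)) := by gcongr
      have f8 : δ s * ((N : ℝ) / (b + 1)) = 5 * ε * N := by rw [hε]; field_simp
      have f9 : ε * t' ≤ ε * (3 * N) := by gcongr
      have f10 : 0 < ε * N := by positivity
      linarith

end Pool.Agent.Lib.JS27
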