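import Pool.Agent.Lib.MP_0447a2_lc.Steps

set_option autoImplicit false

open Filter Topology Pool.Agent.Lib.MP_0447a2_lc

namespace Pool.Agent.Lib.JS27

/-- Riesz product with frequencies `μ` and phases `φ` -/
noncomputable def rz (μ φ : ℕ → ℝ) (T : Finset ℕ) (v : ℝ) : ℝ :=
  ∏ i ∈ T, (1 + (ee (μ i * v + φ i)).re)

/-- correlation of a weight with a character -/
noncomputable def cor (g : ℝ → ℝ) (a b l : ℝ) : ℂ := ∫ v in a..b, (g v : ℂ) * ee (l * v)

lemma one_add_re_nonneg (x : ℝ) : 0 ≤ 1 + (ee x).re := by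
  rw [ee_re]
  linarith [Real.neg_one_le_cos (2 * Real.pi * x)]

lemma rz_nonneg (μ φ : ℕ → ℝ) (T : Finset ℕ) (v : ℝ) : 0 ≤ rz μ φ T v :=
  Finset.prod_nonneg fun _ _ => one_add_re_nonneg _

lemma continuous_rz (μ φ : ℕ → ℝ) (T : Finset ℕ) : Continuous (rz μ φ T) := by
  unfold rz
  have := continuous_ee
  fun_prop

lemma re_ee_cast (x : ℝ) : (((ee x).re : ℝ) : ℂ) = (ee x + ee (-x)) / 2 := by
  rw [← conj_ee, Complex.re_eq_add_conj]

lemma cor_int {g : ℝ → ℝ} (hg : Continuous g) (a b l : ℝ) :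
    IntervalIntegrable (fun v => (g v : ℂ) * ee (l * v)) MeasureTheory.volume a b := by
  apply Continuous.intervalIntegrable
  have := continuous_ee
  fun_prop

lemma cor_insert (μ φ : ℕ → ℝ) {T : Finset ℕ} {j : ℕ} (hj : j ∉ T) (a b l : ℝ) :
    cor (rz μ φ (insert j T)) a b l = cor (rz μ φ T) a b l +
      ee (φ j) / 2 * cor (rz μ φ T) a b (l + μ j) +
      ee (-φ j) / 2 * cor (rz μ φ T) a b (l - μ j) := by
  unfold cor
  have hc := continuous_rz μ φ T
  rw [← intervalIntegral.integral_const_mul, ← intervalIntegral.integral_const_mul,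
    ← intervalIntegral.integral_add (cor_int hc _ _ _) ((cor_int hc _ _ _).const_mul _),
    ← intervalIntegral.integral_add ((cor_int hc _ _ _).add ((cor_int hc _ _ _).const_mul _))
      ((cor_int hc _ _ _).const_mul _)]
  congr 1
  funext v
  have e : rz μ φ (insert j T) v = (1 + (ee (μ j * v + φ j)).re) * rz μ φ T v := by
    unfold rz; rw [Finset.prod_insert hj]
  rw [e]
  push_cast
  rw [re_ee_cast]
  have e1 : ee ((l + μ j) * v) * ee (φ j) = ee (μ j * v + φ j) * ee (l * v) := by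
    rw [← ee_add, ← ee_add]; congr 1; ring
  have e2 : ee ((l - μ j) * v) * ee (-φ j) = ee (-(μ j * v + φ j)) * ee (l * v) := by
    rw [← ee_add, ← ee_add]; congr 1; ring
  linear_combination (-(rz μ φ T v : ℂ) / 2) * e1 - ((rz μ φ T v : ℂ) / 2) * e2

lemma norm_cor_insert (μ φ : ℕ → ℝ) {T : Finset ℕ} {j : ℕ} (hj : j ∉ T) (a b l : ℝ) (z : ℂ) :
    ‖cor (rz μ φ (insert j T)) a b l - z‖ ≤ ‖cor (rz μ φ T) a b l - z‖ +
      (‖cor (rz μ φ T) a b (l + μ j)‖ + ‖cor (rz μ φ T) a b (l - μ j)‖) / 2 := by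
  rw [cor_insert μ φ hj]
  have e : ∀ x y w : ℂ, x + y + w - z = (x - z) + y + w := by intros; ring
  rw [e]
  refine le_trans (norm_add₃_le) ?_
  rw [norm_mul, norm_mul, norm_div, norm_div, norm_ee, norm_ee]
  simp only [Complex.norm_ofNat]
  linarith

lemma cor_empty (μ φ : ℕ → ℝ) (a b : ℝ) {l : ℝ} (hl : l ≠ 0) :
    ‖cor (rz μ φ ∅) a b l‖ ≤ 1 / (Real.pi * |l|) := by
  unfold cor rz
  simp only [Finset.prod_empty, Complex.ofReal_one, one_mul]
  have hpi := Real.pi_pos
  have hc : (2 * Real.pi * Complex.I * l : ℂ) ≠ 0 := by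
    have h1 : (l : ℂ) ≠ 0 := by exact_mod_cast hl
    have h2 : (Real.pi : ℂ) ≠ 0 := by exact_mod_cast hpi.ne'
    have := Complex.I_ne_zero
    simp [h1, h2]
  have e : (fun v : ℝ => ee (l * v)) =
      fun v : ℝ => Complex.exp ((2 * Real.pi * Complex.I * l : ℂ) * v) := by
    funext v; unfold ee; congr 1; push_cast; ring
  rw [e, integral_exp_mul_complex hc]
  have e2 : ∀ v : ℝ, Complex.exp ((2 * Real.pi * Complex.I * l : ℂ) * v) = ee (l * v) :=
    fun v => (congrFun e v).symm
  rw [e2, e2, norm_div]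
  have h3 : ‖ee (l * b) - ee (l * a)‖ ≤ 2 := by
    have := norm_sub_le (ee (l * b)) (ee (l * a))
    rw [norm_ee, norm_ee] at this
    linarith
  have h4 : ‖(2 * Real.pi * Complex.I * l : ℂ)‖ = 2 * (Real.pi * |l|) := by
    simp [abs_of_pos hpi]; ring
  have h5 : 0 < |l| := abs_pos.2 hl
  rw [h4, div_le_div_iff₀ (by positivity) (by positivity)]
  have : 0 < Real.pi * |l| := by positivity
  nlinarith

/-- beyond the degree the correlation is a boundary term -/
lemma cor_far (μ φ : ℕ → ℝ) (a b : ℝ) (T : Finset ℕ) :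
    ∀ l : ℝ, ∑ i ∈ T, |μ i| < |l| →
      ‖cor (rz μ φ T) a b l‖ ≤ 2 ^ T.card / (Real.pi * (|l| - ∑ i ∈ T, |μ i|)) := by
  induction T using Finset.induction_on with
  | empty =>
    intro l hl
    simp only [Finset.sum_empty, Finset.card_empty, pow_zero, sub_zero] at hl ⊢
    exact cor_empty μ φ a b (abs_pos.1 hl)
  | insert j T hj ih =>
    intro l hl
    rw [Finset.sum_insert hj] at hl ⊢
    rw [Finset.card_insert_of_notMem hj]
    have hpi := Real.pi_pos
    have key : ∀ l' : ℝ, |l| - |μ j| ≤ |l'| → ‖cor (rz μ φ T) a b l'‖ ≤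
        2 ^ T.card / (Real.pi * (|l| - (|μ j| + ∑ i ∈ T, |μ i|))) := by
      intro l' hl'
      refine (ih l' (by linarith)).trans ?_
      apply div_le_div_of_nonneg_left (by positivity) (mul_pos hpi (by linarith))
      apply mul_le_mul_of_nonneg_left _ hpi.le
      linarith
    have h0 := key l (by linarith [abs_nonneg (μ j)])
    have h1 := key (l + μ j) (by
      have := abs_sub (l + μ j) (μ j)
      rw [add_sub_cancel_right] at this
      linarith)
    have h2 := key (l - μ j) (abs_sub_abs_le_abs_sub _ _)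
    have h3 := norm_cor_insert μ φ hj a b l 0
    rw [sub_zero, sub_zero] at h3
    have e : (2 : ℝ) ^ (T.card + 1) / (Real.pi * (|l| - (|μ j| + ∑ i ∈ T, |μ i|))) =
        2 * (2 ^ T.card / (Real.pi * (|l| - (|μ j| + ∑ i ∈ T, |μ i|)))) := by ring
    rw [e]
    linarith

section geo

variable {m ρ : ℝ}

lemma geo_sum (hρ : 8 ≤ |ρ|) (j : ℕ) :
    ∑ i ∈ Finset.range j, |m * ρ ^ i| ≤ |m * ρ ^ j| / (|ρ| - 1) := by
  simp only [abs_mul, abs_pow]
  rw [← Finset.mul_sum, mul_div_assoc]
  gcongr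
  exact sum_pow_le (by linarith) j

lemma geo_sum_sub (hρ : 8 ≤ |ρ|) {T : Finset ℕ} {j : ℕ} (hT : ∀ i ∈ T, i < j) :
    ∑ i ∈ T, |m * ρ ^ i| ≤ |m * ρ ^ j| / (|ρ| - 1) := by
  refine le_trans ?_ (geo_sum hρ j)
  apply Finset.sum_le_sum_of_subset_of_nonneg
  · intro i hi; exact Finset.mem_range.2 (hT i hi)
  · intros; positivity

lemma cor_half (hm : m ≠ 0) (hρ : 8 ≤ |ρ|) (φ : ℕ → ℝ) (a b : ℝ) {T : Finset ℕ} {j : ℕ}
    (hT : ∀ i ∈ T, i < j) {l : ℝ} (hl : |m * ρ ^ j| / 2 ≤ |l|) :
    ‖cor (rz (fun i => m * ρ ^ i) φ T) a b l‖ ≤ (1 / 4) ^ j / |m| := by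
  have h1 := geo_sum_sub (m := m) hρ hT
  have hm' : 0 < |m| := abs_pos.2 hm
  have hx : 0 < |m * ρ ^ j| := by rw [abs_mul, abs_pow]; positivity
  have h2 : |m * ρ ^ j| / (|ρ| - 1) ≤ |m * ρ ^ j| / 7 :=
    div_le_div_of_nonneg_left hx.le (by norm_num) (by linarith)
  have h3 := cor_far (fun i => m * ρ ^ i) φ a b T l (by linarith)
  refine h3.trans ?_
  have h4 : T.card ≤ j := by
    have : T ⊆ Finset.range j := fun i hi => Finset.mem_range.2 (hT i hi)
    simpa using Finset.card_le_card this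
  have h5 : (2 : ℝ) ^ T.card ≤ 2 ^ j := pow_le_pow_right₀ (by norm_num) h4
  have h6 : |m| * 8 ^ j ≤ |m * ρ ^ j| := by
    rw [abs_mul, abs_pow]; gcongr
  have h7 : |m| * 8 ^ j ≤ Real.pi * (|l| - ∑ i ∈ T, |m * ρ ^ i|) := by
    have : |m * ρ ^ j| / 3 ≤ |l| - ∑ i ∈ T, |m * ρ ^ i| := by linarith
    nlinarith [Real.pi_gt_three]
  calc _ ≤ 2 ^ j / (|m| * 8 ^ j) := by gcongr
    _ = (1 / 4) ^ j / |m| := by
      have : (8 : ℝ) ^ j = 2 ^ j * 4 ^ j := by rw [← mul_pow]; norm_num
      rw [this, one_div_pow]; field_simp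

lemma quarter_sum (T : Finset ℕ) : ∑ i ∈ T, (1 / 4 : ℝ) ^ i ≤ 2 := by
  have h := (summable_geometric_of_lt_one (r := (1 / 4 : ℝ)) (by norm_num) (by norm_num)).sum_le_tsum
    T (fun i _ => by positivity)
  rw [tsum_geometric_of_lt_one (by norm_num) (by norm_num)] at h
  norm_num at h ⊢
  linarith

/-- the mean of the Riesz product -/
lemma cor_mean (hm : m ≠ 0) (hρ : 8 ≤ |ρ|) (φ : ℕ → ℝ) (a b : ℝ) (T : Finset ℕ) :
    ‖cor (rz (fun i => m * ρ ^ i) φ T) a b 0 - (b - a : ℝ)‖ ≤ 2 / |m| := by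
  have key : ‖cor (rz (fun i => m * ρ ^ i) φ T) a b 0 - (b - a : ℝ)‖ ≤
      (∑ i ∈ T, (1 / 4 : ℝ) ^ i) / |m| := by
    induction T using Finset.induction_on_max with
    | empty =>
      have : ee 0 = 1 := by unfold ee; simp
      simp [cor, rz, this]
    | insert j T hj ih =>
      have hj' : j ∉ T := fun h => lt_irrefl _ (hj j h)
      have h1 := norm_cor_insert (fun i => m * ρ ^ i) φ hj' a b 0 (b - a : ℝ)
      have hx := abs_nonneg (m * ρ ^ j)
      have h2 := cor_half hm hρ φ a b hj (l := 0 + m * ρ ^ j) (by rw [zero_add]; linarith)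
      have h3 := cor_half hm hρ φ a b hj (l := 0 - m * ρ ^ j) (by
        rw [zero_sub, abs_neg]; linarith)
      rw [Finset.sum_insert hj', add_div]
      linarith
  refine key.trans ?_
  gcongr
  exact quarter_sum T

/-- correlation with a frequency far from the spectrum -/
lemma cor_nonres (hm : m ≠ 0) (hρ : 8 ≤ |ρ|) (φ : ℕ → ℝ) (a b : ℝ) {D : ℝ} (hD : 0 < D)
    (T : Finset ℕ) (l : ℝ)
    (hl : ∀ e : ℕ → ℤ, (∀ i, |e i| ≤ 1) → D ≤ |l + ∑ i ∈ T, e i * (m * ρ ^ i)|) :
    ‖cor (rz (fun i => m * ρ ^ i) φ T) a b l‖ ≤ 1 / D + 2 / |m| := by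
  have key : ‖cor (rz (fun i => m * ρ ^ i) φ T) a b l‖ ≤
      1 / D + (∑ i ∈ T, (1 / 4 : ℝ) ^ i) / |m| := by
    induction T using Finset.induction_on_max generalizing l with
    | empty =>
      have h1 := hl 0 (by simp)
      simp only [Finset.sum_empty, add_zero, zero_div] at h1 ⊢
      have h2 : l ≠ 0 := abs_pos.1 (by linarith)
      refine (cor_empty _ _ _ _ h2).trans ?_
      apply one_div_le_one_div_of_le hD
      nlinarith [Real.pi_gt_three]
    | insert j T hj ih =>
      have hj' : j ∉ T := fun h => lt_irrefl _ (hj j h)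
      have h1 := norm_cor_insert (fun i => m * ρ ^ i) φ hj' a b l 0
      rw [sub_zero, sub_zero] at h1
      have hsub : ∀ c : ℤ, |c| ≤ 1 → ‖cor (rz (fun i => m * ρ ^ i) φ T) a b (l + c * (m * ρ ^ j))‖ ≤
          1 / D + (∑ i ∈ T, (1 / 4 : ℝ) ^ i) / |m| := by
        intro c hc
        apply ih
        intro e he
        have h2 := hl (Function.update e j c) (by
          intro i
          by_cases hi : i = j
          · subst hi; simpa using hc
          · simpa [Function.update_of_ne hi] using he i)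
        rw [Finset.sum_insert hj', Function.update_self, ← add_assoc] at h2
        refine h2.trans_eq ?_
        congr 2
        apply Finset.sum_congr rfl
        intro i hi
        rw [Function.update_of_ne (hj i hi).ne]
      have s0 := hsub 0 (by simp)
      have s1 := hsub 1 (by simp)
      have s2 := hsub (-1) (by simp)
      simp only [Int.cast_zero, zero_mul, add_zero, Int.cast_one, one_mul, Int.cast_neg,
        neg_mul, ← sub_eq_add_neg] at s0 s1 s2
      rw [Finset.sum_insert hj', add_div]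
      rcases le_total (|m * ρ ^ j| / 2) |l| with h | h
      · have := cor_half hm hρ φ a b hj h
        linarith
      · have h2 := cor_half hm hρ φ a b hj (l := l + m * ρ ^ j) (by
          have := abs_sub (l + m * ρ ^ j) l
          rw [add_sub_cancel_left] at this
          linarith)
        have h3 := cor_half hm hρ φ a b hj (l := l - m * ρ ^ j) (by
          have := abs_sub_abs_le_abs_sub (m * ρ ^ j) l
          rw [abs_sub_comm] at this
          linarith)
        linarith
  refine key.trans ?_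
  gcongr
  exact quarter_sum T

/-- an element of the spectrum is small or large relative to the `j`-th frequency -/
lemma spec_dich (hρ : 8 ≤ |ρ|) (T : Finset ℕ) (e : ℕ → ℤ) (he : ∀ i, |e i| ≤ 1) (j : ℕ) :
    |∑ i ∈ T, e i * (m * ρ ^ i)| ≤ |m * ρ ^ j| / (|ρ| - 1) ∨
      ∃ i0 ∈ T, j ≤ i0 ∧
        |m * ρ ^ i0| * (1 - 1 / (|ρ| - 1)) ≤ |∑ i ∈ T, e i * (m * ρ ^ i)| := by
  have hsmall : ∀ (T : Finset ℕ) (j : ℕ), (∀ i ∈ T, i < j) →
      |∑ i ∈ T, e i * (m * ρ ^ i)| ≤ |m * ρ ^ j| / (|ρ| - 1) := by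
    intro T j hT
    refine le_trans (Finset.abs_sum_le_sum_abs _ _) (le_trans ?_ (geo_sum_sub hρ hT))
    apply Finset.sum_le_sum
    intro i _
    rw [abs_mul]
    have : |(e i : ℝ)| ≤ 1 := by exact_mod_cast he i
    exact mul_le_of_le_one_left (abs_nonneg _) this
  induction T using Finset.induction_on_max with
  | empty => left; simp only [Finset.sum_empty, abs_zero]; apply div_nonneg (abs_nonneg _); linarith
  | insert k T hk ih =>
    have hk' : k ∉ T := fun h => lt_irrefl _ (hk k h)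
    by_cases h0 : e k = 0
    · rw [Finset.sum_insert hk', h0]
      simp only [Int.cast_zero, zero_mul, zero_add]
      rcases ih with h | ⟨i0, h1, h2, h3⟩
      · exact Or.inl h
      · exact Or.inr ⟨i0, Finset.mem_insert_of_mem h1, h2, h3⟩
    · rcases lt_or_ge k j with h | h
      · left
        apply hsmall
        intro i hi
        rcases Finset.mem_insert.1 hi with rfl | hi
        · exact h
        · exact (hk i hi).trans h
      · right
        refine ⟨k, Finset.mem_insert_self _ _, h, ?_⟩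
        rw [Finset.sum_insert hk']
        have h1 := hsmall T k hk
        have h2 : |(e k : ℝ)| = 1 := by
          have h3 := he k
          have h4 : 1 ≤ |e k| := Int.one_le_abs h0
          have : |e k| = 1 := le_antisymm h3 h4
          exact_mod_cast this
        have h3 := abs_sub (e k * (m * ρ ^ k) + ∑ i ∈ T, e i * (m * ρ ^ i))
          (∑ i ∈ T, e i * (m * ρ ^ i))
        rw [add_sub_cancel_right, abs_mul, h2, one_mul] at h3
        have e2 : |m * ρ ^ k| * (1 - 1 / (|ρ| - 1)) = |m * ρ ^ k| - |m * ρ ^ k| / (|ρ| - 1) := by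
          ring
        linarith

end geo

end Pool.Agent.Lib.JS27
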