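import Pool.Agent.Lib.JS27.Bias

set_option autoImplicit false

open Filter Topology MeasureTheory Pool.Agent.Lib.MP_0447a2_lc

namespace Pool.Agent.Lib.JS27

/-- choice of a point with large bias and small Weyl sums -/
lemma select {X R : Type*} [MeasurableSpace X] {μ : Measure X} {B : Set X}
    (hB : ∀ᵐ x ∂μ, x ∈ B) {w G : X → ℝ} {Q : R → X → ℝ} (s : Finset R) {γ N Λ C : ℝ}
    (hγ : 0 < γ) (hN : 0 < N) (hΛ : 0 ≤ Λ)
    (hw0 : ∀ x, 0 ≤ w x) (hQ0 : ∀ r x, 0 ≤ Q r x) (hGN : ∀ x, G x ≤ N)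
    (iw : Integrable w μ) (iG : Integrable (fun x => w x * G x) μ)
    (iQ : ∀ r, Integrable (fun x => w x * Q r x) μ)
    (hw : ∫ x, w x ∂μ ≤ 2) (hG : 4 * γ * N ≤ ∫ x, w x * G x ∂μ)
    (hQ : ∀ r ∈ s, ∫ x, w x * Q r x ∂μ ≤ C) (hC : Λ * (s.card * C) ≤ γ * N ^ 2) :
    ∃ x ∈ B, γ * N ≤ G x ∧ ∀ r ∈ s, Λ * Q r x ≤ N ^ 2 := by
  have key : ∃ x ∈ B, γ * N ≤ G x - Λ / N * ∑ r ∈ s, Q r x := by
    by_contra hcon
    push Not at hcon
    have i2 : Integrable (fun x => ∑ r ∈ s, w x * Q r x) μ :=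
      integrable_finsetSum _ fun r _ => iQ r
    have h1 : ∫ x, (w x * G x - Λ / N * ∑ r ∈ s, w x * Q r x) ∂μ ≤ ∫ x, γ * N * w x ∂μ := by
      apply integral_mono_ae (iG.sub (i2.const_mul _)) (iw.const_mul _)
      filter_upwards [hB] with x hx
      have h2 := mul_le_mul_of_nonneg_left (hcon x hx).le (hw0 x)
      simp only [Pi.sub_apply]
      rw [← Finset.mul_sum]
      linarith
    rw [integral_sub iG (i2.const_mul _), integral_const_mul, integral_const_mul,
      integral_finsetSum _ fun r _ => iQ r] at h1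
    have h3 : ∑ r ∈ s, ∫ x, w x * Q r x ∂μ ≤ s.card * C := by
      have := Finset.sum_le_sum hQ
      simpa using this
    have h4 : Λ / N * ∑ r ∈ s, ∫ x, w x * Q r x ∂μ ≤ γ * N := by
      calc _ ≤ Λ / N * (s.card * C) := by gcongr
        _ = Λ * (s.card * C) / N := by ring
        _ ≤ γ * N ^ 2 / N := by gcongr
        _ = γ * N := by field_simp
    have h5 : γ * N * ∫ x, w x ∂μ ≤ γ * N * 2 := by gcongr
    have h6 : 0 < γ * N := by positivity
    linarith
  obtain ⟨x, hx, h⟩ := key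
  have h0 : 0 ≤ Λ / N * ∑ r ∈ s, Q r x :=
    mul_nonneg (by positivity) (Finset.sum_nonneg fun r _ => hQ0 r x)
  refine ⟨x, hx, by linarith, fun r hr => ?_⟩
  have h1 : Q r x ≤ ∑ r ∈ s, Q r x := Finset.single_le_sum (f := fun r => Q r x)
    (fun r _ => hQ0 r x) hr
  have h2 : Λ / N * Q r x ≤ Λ / N * ∑ r ∈ s, Q r x := by gcongr
  have h3 : 0 < γ * N := by positivity
  have h4 : Λ / N * Q r x ≤ N := by linarith [hGN x]
  calc Λ * Q r x = Λ / N * Q r x * N := by field_simp
    _ ≤ N * N := by gcongr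
    _ = N ^ 2 := by ring

lemma norm_sum_ee_le (N : ℕ) (x : ℕ → ℝ) : ‖∑ n ∈ Finset.range N, ee (x n)‖ ≤ N := by
  calc _ ≤ ∑ j ∈ Finset.range N, (1 : ℝ) := norm_sum_le_of_le _ fun j _ => (norm_ee _).le
    _ = N := by simp

lemma norm_sum_ee_sub (N : ℕ) (x y : ℕ → ℝ) (h : ℕ) :
    ‖∑ n ∈ Finset.range N, ee (h * x n) - ∑ n ∈ Finset.range N, ee (h * y n)‖ ≤
      2 * Real.pi * h * ∑ n ∈ Finset.range N, |x n - y n| := by
  rw [← Finset.sum_sub_distrib, Finset.mul_sum]
  apply norm_sum_le_of_le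
  intro n _
  refine (norm_ee_sub _ _).trans_eq ?_
  rw [← mul_sub, abs_mul, Nat.abs_cast]
  ring

section box

variable {ι : Type} [Fintype ι] [DecidableEq ι]

/-- Lebesgue measure on the unit cube with lower corner `a` -/
noncomputable def cube (a : ι → ℝ) : Measure (ι → ℝ) :=
  Measure.pi fun i => volume.restrict (Set.Icc (a i) (a i + 1))

omit [DecidableEq ι] in
lemma cube_eq (a : ι → ℝ) :
    cube a = volume.restrict (Set.univ.pi fun i => Set.Icc (a i) (a i + 1)) := by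
  unfold cube
  rw [volume_pi, Measure.restrict_pi_pi]

omit [DecidableEq ι] in
lemma cube_int (a : ι → ℝ) {f : (ι → ℝ) → ℝ} (hf : Continuous f) : Integrable f (cube a) := by
  rw [cube_eq]
  exact hf.continuousOn.integrableOn_compact (isCompact_univ_pi fun _ => isCompact_Icc)

omit [DecidableEq ι] in
lemma cube_ae (a : ι → ℝ) : ∀ᵐ x ∂cube a, x ∈ {x : ι → ℝ | ∀ i, a i ≤ x i ∧ x i ≤ a i + 1} := by
  rw [cube_eq]
  filter_upwards [ae_restrict_mem (MeasurableSet.univ_pi fun _ => measurableSet_Icc)] with x hx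
  exact fun i => hx i (Set.mem_univ i)

omit [DecidableEq ι] in
lemma cube_const (a : ι → ℝ) (c : ℝ) : ∫ _, c ∂cube a = c := by
  have : cube a Set.univ = 1 := by
    unfold cube
    rw [Measure.pi_univ]
    simp
  simp [Measure.real, this]

/-- comparison of integrals through one coordinate -/
lemma cube_le (a : ι → ℝ) {f g : (ι → ℝ) → ℝ} (hf : Continuous f) (hg : Continuous g)
    (f0 : ∀ x, 0 ≤ f x) (g0 : ∀ x, 0 ≤ g x) (i : ι)
    (h : ∀ θ, ∫ v in (a i)..(a i + 1), f (Function.update θ i v) ≤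
      ∫ v in (a i)..(a i + 1), g (Function.update θ i v)) :
    ∫ x, f x ∂cube a ≤ ∫ x, g x ∂cube a := by
  have key : ∀ {f : (ι → ℝ) → ℝ}, Continuous f → (∀ x, 0 ≤ f x) → ∀ θ : ι → ℝ,
      ∫⁻ v, ENNReal.ofReal (f (Function.update θ i v))
        ∂(volume.restrict (Set.Icc (a i) (a i + 1))) =
      ENNReal.ofReal (∫ v in (a i)..(a i + 1), f (Function.update θ i v)) := by
    intro f hf f0 θ
    have hc : Continuous fun v : ℝ => f (Function.update θ i v) :=
      hf.comp (continuous_const.update i continuous_id)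
    rw [intervalIntegral.integral_of_le (by linarith), ← integral_Icc_eq_integral_Ioc,
      ofReal_integral_eq_lintegral_ofReal
        (hc.continuousOn.integrableOn_compact isCompact_Icc) (ae_of_all _ fun v => f0 _)]
  rw [← ENNReal.ofReal_le_ofReal_iff (integral_nonneg g0),
    ofReal_integral_eq_lintegral_ofReal (cube_int a hf) (ae_of_all _ f0),
    ofReal_integral_eq_lintegral_ofReal (cube_int a hg) (ae_of_all _ g0)]
  apply lintegral_le_of_lmarginal_le {i} hf.measurable.ennreal_ofReal hg.measurable.ennreal_ofReal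
  rw [lmarginal_singleton, lmarginal_singleton]
  intro θ
  simp only
  rw [key hf f0, key hg g0]
  exact ENNReal.ofReal_le_ofReal (h θ)

end box

end Pool.Agent.Lib.JS27
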